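import Pool.Agent.H79.ES.NCT
import Pool.Agent.H79.ES.NCP
import Pool.Agent.H79.PQ.Joint

/-!
# Module CLM: critical points depend upper semicontinuously on the map; joint continuity

PROOFS. `crit_near`: chart (`chart_av`, H79/ES/NCT, with `S = {c}`) so that `φ c` is finite (compare `crit_pers` in H79/ES/NCP); `w = Lin s v` depends continuously on `v`, and by `isCrit_conj` it is enough to treat finite `c`. For finite `c`, `w` near `w0`: `IsCrit (Rf w0) c` iff `(Wr (pol w0.1) (pol w0.2)).eval c = 0` (`crit_coe` in H44/Fatou/Basic for one direction: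
critical implies zero; the converse: a zero of `Wr` is a critical point, see `Crit.lean` in H32/BT), so `Wr ≠ 0` at `(w0, c)`, hence near `(w0, c)` (continuity in the coefficients and the point), hence not critical near.
`jc`: `(v, x) ↦ Rf v x` is continuous at `(v0, x)` if `v0` is a coprime pair of degree `d`: `rat P Q (z) = pt (P z) (Q z)`, `rat P Q ∞ = pt (coefficients of degree dg)`; homogeneous form: `Rf v (pt X Y) = pt (hom d (pol v.1) X Y) (hom d (pol v.2) X Y)` for coprime pairs of degree exactly `d` (`rat_pt`, `hom_ne` in H91/Fatou/Hom; `cop_near`: the maps near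
`v0` are coprime of degree `d`), `pt` is continuous away from `(0, 0)` and `hom` is continuous in everything; near a finite point `z ↦ (z, 1)`, near infinity `z ↦ (1, 1 / z)`. (If joint continuity is already in the library use it.)
`jc_cpt`: `A` closed (compact), `O` open, `Rf v0 x ∈ O` for `x ∈ A`: for `v` near `v0` also `Rf v x ∈ O` for all `x ∈ A` (`jc` and compactness, `IsCompact.eventually_forall_of_forall_eventually`). `jc_it`: `(v, x) ↦ (Rf v)^[m] x` is continuous at `(v0, x)`: induction.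
-/

set_option autoImplicit false

open Filter Topology Polynomial Metric Set

namespace Pool.Agent.H44.ND

open Pool.Agent.H44.Fatou Pool.Agent.H32.BT Pool.Agent.H79.Eul Pool.Agent.H79.Par
open Pool.Agent.H35.EX Pool.Agent.H44.RR

variable {d : ℕ} {v0 : E d}

theorem crit_near (hd : 2 ≤ d) (hcop : IsCoprime (pol v0.1) (pol v0.2))
    (hdeg : max (pol v0.1).natDegree (pol v0.2).natDegree = d) {c : OnePoint ℂ}
    (hc : ¬ IsCrit (Rf v0) c) : ∃ W ∈ 𝓝 c, ∀ᶠ v in 𝓝 v0, ∀ z ∈ W, ¬ IsCrit (Rf v) z := by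
  obtain ⟨s, φ, L, hs, hφs, hall, -, -⟩ :=
    Pool.Agent.H79.ES.chart_av (d := d) {c} (Set.countable_singleton c) hd
  obtain ⟨hcop', hdeg', hconj⟩ := hall v0 hcop hdeg
  have hne : φ c ≠ OnePoint.infty := by
    intro h
    apply hs
    rw [← hφs] at h
    rw [Set.mem_singleton_iff]
    exact (φ.injective h).symm
  obtain ⟨c1, hc1⟩ := OnePoint.ne_infty_iff_exists.1 hne
  have hw : wv (Lin s v0) c1 ≠ 0 := by
    intro h
    rw [Pool.Agent.H61.TT.wv_pol] at h
    apply hc
    rw [← isCrit_conj φ hconj, ← hc1]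
    exact crit_of_wr hcop' (by rw [hdeg']; omega) h
  have hcont : Tendsto (fun q : E d × ℂ => wv (Lin s q.1) q.2) (𝓝 v0 ×ˢ 𝓝 c1)
      (𝓝 (wv (Lin s v0) c1)) := by
    rw [← nhds_prod_eq]
    have h3 : Continuous (fun q : E d × ℂ => ((Lin s q.1, q.2) : E d × ℂ)) :=
      ((lin_cont s (d := d)).comp continuous_fst).prodMk continuous_snd
    exact ((wv_cont (d := d)).comp h3).tendsto (v0, c1)
  have hev := hcont.eventually_ne hw
  obtain ⟨pa, hpa, pb, hpb, hpp⟩ := Filter.eventually_prod_iff.1 hev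
  refine ⟨φ ⁻¹' (((↑) : ℂ → OnePoint ℂ) '' {z | pb z}), ?_, ?_⟩
  · apply φ.continuous.continuousAt.preimage_mem_nhds
    rw [← hc1, OnePoint.nhds_coe_eq]
    exact image_mem_map hpb
  · filter_upwards [hpa, cop_near hcop hdeg (by omega)] with v hv h3
    obtain ⟨h4, h5, h6⟩ := hall v h3.1 h3.2
    rintro z ⟨z1, hz1, hz2⟩ hcr
    have h7 : IsCrit (Rf (Lin s v)) (z1 : OnePoint ℂ) := by
      rw [hz2, isCrit_conj φ h6]
      exact hcr
    apply hpp hv hz1
    rw [Pool.Agent.H61.TT.wv_pol]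
    exact crit_coe h7

theorem jc (hd : 1 ≤ d) (hcop : IsCoprime (pol v0.1) (pol v0.2))
    (hdeg : max (pol v0.1).natDegree (pol v0.2).natDegree = d) (x : OnePoint ℂ) :
    ContinuousAt (fun q : E d × OnePoint ℂ => Rf q.1 q.2) (v0, x) := by
  have h := Pool.Agent.H79.PJ.rf_joint hd hcop hdeg x
  rw [← nhds_prod_eq] at h
  exact h

theorem jc_cpt (hd : 1 ≤ d) (hcop : IsCoprime (pol v0.1) (pol v0.2))
    (hdeg : max (pol v0.1).natDegree (pol v0.2).natDegree = d) {A O : Set (OnePoint ℂ)}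
    (hA : IsClosed A) (hO : IsOpen O) (h : ∀ x ∈ A, Rf v0 x ∈ O) :
    ∀ᶠ v in 𝓝 v0, ∀ x ∈ A, Rf v x ∈ O := by
  refine hA.isCompact.eventually_forall_of_forall_eventually fun x hx => ?_
  exact (jc hd hcop hdeg x).eventually (hO.mem_nhds (h x hx))

theorem jc_it (hd : 1 ≤ d) (hcop : IsCoprime (pol v0.1) (pol v0.2))
    (hdeg : max (pol v0.1).natDegree (pol v0.2).natDegree = d) (m : ℕ) (x : OnePoint ℂ) :
    ContinuousAt (fun q : E d × OnePoint ℂ => (Rf q.1)^[m] q.2) (v0, x) := by
  have h := Pool.Agent.H79.PJ.rf_joint_iter hd hcop hdeg x m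
  rw [← nhds_prod_eq] at h
  exact h

end Pool.Agent.H44.ND
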