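import Pool.Agent.H44.ND.SKC
import Pool.Agent.H44.ND.CLM
import Pool.Agent.H79.ES.NNA
import Pool.Agent.H84.BR.Trp

/-!
# Module JMP: a new attracting cycle attracts a new critical point

PROOF of `na_jump`. Suppose not: for every `k` there are `v k ∈ ball v0 (1 / (k + 1))` (coprime, degree `d`), `z k`, `p k` with `chord z0 (z k) < 1 / (k + 1)`, `IsSink (Rf (v k)) (z k) (p k)` and not `NA v0 + 1 ≤ NA (v k)`. `sink_crit`: `c k` critical for `Rf (v k)`, with `(Rf (v k))^[p k * j] ((Rf (v k))^[m k] (c k)) → z k` as `j → ∞`; the sphere is compact: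
along a subsequence `c k → c`. `c` is critical for `Rf v0` (`crit_near`). CLAIM: `¬ Att (Rf v0) c`. Otherwise there is a sink `a` of `Rf v0` (period `n`) with `(Rf v0)^[n j] c → a`; `trap_of_sink` (H84/BR/Trp): a trap `A` for `Rf v0` with `a ∈ interior A`: `A` is closed, `Rf v0 x ∈ interior A` for `x ∈ A`, all points of `A` are attracted (fields of `Trap`). So
`z0 ∉ A`, and `(Rf v0)^[m] c ∈ interior A` for some `m`. For large `k`: `(Rf (v k))^[m] (c k) ∈ interior A` (`jc_it`), `Rf (v k)` maps `A` to `interior A` (`jc_cpt`), so `(Rf (v k))^[i] (c k) ∈ A` for all `i ≥ m`, and the limit `z k ∈ A` (closed): `z k → z0`, so `z0 ∈ A`: contradiction.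
(The convergence `z k → z0` from `chord z0 (z k) → 0`: `chord_ball`-type lemma, H79/ES/NNA or H44/RC/CHB.) By `na_up` (H79/ES/NNA) with `c`: for large `k` (`chord c (c k) < ε`, `v k ∈ ball v0 ε`, `IsCrit`, `Att (Rf (v k)) (c k)`, which follows from `sink_crit` with `att_iter`): `NA v0 + 1 ≤ NA (v k)`: contradiction.
-/

set_option autoImplicit false

open Filter Topology Polynomial Metric Set

namespace Pool.Agent.H44.ND

open Pool.Agent.H44.Fatou Pool.Agent.H32.BT Pool.Agent.H79.Eul Pool.Agent.H79.Par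
open Pool.Agent.H35.EX Pool.Agent.H44.RR Pool.Agent.H79.ES

variable {d : ℕ} {v0 : E d}

/-- chordal balls in a neighbourhood -/
private theorem chord_ball {c : OnePoint ℂ} {U : Set (OnePoint ℂ)} (hU : IsOpen U) (hc : c ∈ U) :
    ∃ ε : ℝ, 0 < ε ∧ ∀ x, chord c x < ε → x ∈ U := by
  by_cases hne : (Uᶜ).Nonempty
  · have hcomp : IsCompact Uᶜ := hU.isClosed_compl.isCompact
    have hcont : Continuous (fun x : OnePoint ℂ => chord c x) :=
      chord_cont.comp (Continuous.prodMk continuous_const continuous_id)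
    obtain ⟨y, hy, hmin⟩ := hcomp.exists_isMinOn hne hcont.continuousOn
    refine ⟨chord c y, chord_pos ?_, ?_⟩
    · intro h
      rw [h] at hc
      exact hy hc
    · intro x hx
      by_contra hxU
      have := hmin (show x ∈ Uᶜ from hxU)
      exact absurd hx (not_lt.2 this)
  · refine ⟨1, one_pos, fun x _ => ?_⟩
    by_contra hx
    exact hne ⟨x, hx⟩

private theorem chord_self (c : OnePoint ℂ) : chord c c = 0 := by
  induction c using OnePoint.rec with
  | infty => rfl
  | coe z =>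
    show ‖z - z‖ / (√(1 + ‖z‖ ^ 2) * √(1 + ‖z‖ ^ 2)) = 0
    rw [sub_self, norm_zero, zero_div]

private theorem chord_nhds (c : OnePoint ℂ) {ε : ℝ} (hε : 0 < ε) :
    {x : OnePoint ℂ | chord c x < ε} ∈ 𝓝 c := by
  have hcont : Continuous (fun x : OnePoint ℂ => chord c x) :=
    chord_cont.comp (Continuous.prodMk continuous_const continuous_id)
  refine (isOpen_lt hcont continuous_const).mem_nhds ?_
  show chord c c < ε
  rw [chord_self]
  exact hε

private theorem iter_mem {f : OnePoint ℂ → OnePoint ℂ} {A : Set (OnePoint ℂ)}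
    (hf : ∀ x ∈ A, f x ∈ A) {x : OnePoint ℂ} {m : ℕ} (h : f^[m] x ∈ A) (j : ℕ) :
    f^[m + j] x ∈ A := by
  induction j with
  | zero => exact h
  | succ j ih =>
    rw [← add_assoc, Function.iterate_succ_apply']
    exact hf _ ih

theorem na_jump (hd : 2 ≤ d) (hcop : IsCoprime (pol v0.1) (pol v0.2))
    (hdeg : max (pol v0.1).natDegree (pol v0.2).natDegree = d) {z0 : OnePoint ℂ}
    (hz0 : ¬ Att (Rf v0) z0) :
    ∃ ε : ℝ, 0 < ε ∧ ∀ v ∈ ball v0 ε, IsCoprime (pol v.1) (pol v.2) →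
      max (pol v.1).natDegree (pol v.2).natDegree = d →
      ∀ (z : OnePoint ℂ) (p : ℕ), chord z0 z < ε → IsSink (Rf v) z p → NA v0 + 1 ≤ NA v := by
  by_contra hcon
  push Not at hcon
  have hpos : ∀ k : ℕ, (0 : ℝ) < 1 / ((k : ℝ) + 1) := fun k => by positivity
  choose v hv hvc hvd z p hz hs hna using fun k : ℕ => hcon (1 / ((k : ℝ) + 1)) (hpos k)
  have hsc : ∀ k, ∃ c, IsCrit (Rf (v k)) c ∧ ∃ m : ℕ,
      Tendsto (fun j : ℕ => (Rf (v k))^[p k * j] ((Rf (v k))^[m] c)) atTop (𝓝 (z k)) := fun k =>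
    sink_crit (hvc k) (by rw [hvd k]; exact hd) (hs k)
  choose c hcr m hct using hsc
  have hlim : Tendsto (fun k : ℕ => 1 / ((k : ℝ) + 1)) atTop (𝓝 0) :=
    tendsto_one_div_add_atTop_nhds_zero_nat
  have hv0 : Tendsto v atTop (𝓝 v0) := by
    rw [tendsto_iff_dist_tendsto_zero]
    refine squeeze_zero (fun _ => dist_nonneg) (fun k => (mem_ball.1 (hv k)).le) hlim
  have hz0' : Tendsto z atTop (𝓝 z0) := by
    rw [tendsto_def]
    intro U hU
    obtain ⟨U', hU', hUo, hzU⟩ := mem_nhds_iff.1 hU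
    obtain ⟨ε, hε, h1⟩ := chord_ball hUo hzU
    filter_upwards [(hlim.eventually (gt_mem_nhds hε))] with k hk
    exact hU' (h1 _ ((hz k).trans hk))
  obtain ⟨c0, -, hc0⟩ := (isCompact_univ (X := OnePoint ℂ)).exists_mapClusterPt
    (u := c) (f := atTop) (by simp)
  have hfr : ∀ W ∈ 𝓝 c0, ∃ᶠ k in atTop, c k ∈ W := fun W hW => hc0.frequently hW
  have hnatt : ¬ Att (Rf v0) c0 := by
    rintro ⟨a, n, hsk, hta⟩
    obtain ⟨A, hA, haA⟩ := Pool.Agent.H84.BR.trap_of_sink hcop (by rw [hdeg]; exact hd) hsk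
    have hA' : Pool.Agent.H84.BR.Trap (Rf v0) A := hA
    have hzA : z0 ∉ A := fun h => hz0 (hA'.att z0 h)
    obtain ⟨j, hj⟩ := (hta.eventually_mem (isOpen_interior.mem_nhds haA)).exists
    have h1 := (jc_it (v0 := v0) (by omega) hcop hdeg (n * j) c0).preimage_mem_nhds
      (isOpen_interior.mem_nhds hj)
    rw [nhds_prod_eq, mem_prod_iff] at h1
    obtain ⟨V, hV, W, hW, hVW⟩ := h1
    have h2 := jc_cpt (v0 := v0) (by omega) hcop hdeg hA'.closed
      (isOpen_interior (s := A)) hA'.maps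
    have h3 : ∀ᶠ k in atTop, z k ∈ Aᶜ :=
      hz0'.eventually_mem (hA'.closed.isOpen_compl.mem_nhds hzA)
    have h4 := (hfr W hW).and_eventually ((hv0.eventually_mem hV).and
      ((hv0.eventually h2).and h3))
    obtain ⟨k, hkW, hkV, hkA, hkz⟩ := h4.exists
    apply hkz
    have h5' : (v k, c k) ∈ (fun q : E d × OnePoint ℂ => (Rf q.1)^[n * j] q.2) ⁻¹' interior A :=
      hVW (Set.mk_mem_prod hkV hkW)
    have h5 : (Rf (v k))^[n * j] (c k) ∈ interior A := by
      rw [Set.mem_preimage] at h5'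
      exact h5'
    have h6 : ∀ i, (Rf (v k))^[n * j + i] (c k) ∈ A := fun i =>
      iter_mem (fun x hx => interior_subset (hkA x hx)) (interior_subset h5) i
    refine hA'.closed.mem_of_tendsto (hct k) ?_
    have hp : 0 < p k := (hs k).1
    filter_upwards [eventually_ge_atTop (n * j)] with i hi
    rw [← Function.iterate_add_apply]
    have h7 : n * j ≤ p k * i + m k := by nlinarith
    have h8 := h6 (p k * i + m k - n * j)
    rwa [Nat.add_sub_cancel' h7] at h8
  obtain ⟨ε, hε, h1⟩ := na_up hd hcop hdeg hnatt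
  have h2 := (hfr _ (chord_nhds c0 hε)).and_eventually (hv0.eventually_mem (ball_mem_nhds v0 hε))
  obtain ⟨k, hk1, hk2⟩ := h2.exists
  have h3 : Att (Rf (v k)) (c k) := by
    have hf : Continuous (Rf (v k)) := rat_continuous (hvc k)
    exact (att_iter hf (c k) (m k)).1 ⟨z k, p k, hs k, hct k⟩
  have h4 := h1 (v k) hk2 (c k) hk1 (hcr k) h3
  exact absurd h4 (not_le.2 (hna k))

end Pool.Agent.H44.ND
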