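import Pool.Agent.H79.Par.PerFin

/-!
# Module CRD: the number of the finite periodic points is at most `e ^ n + 1`

PROOF. `perRS P Q j` (H79/Par/PerFin): by induction the `natDegree` of both components is at most `e ^ j`, `e = dg P Q = max P.natDegree Q.natDegree` (`natDegree_sum_le`, `natDegree_mul_le`, `natDegree_pow_le`: `i * e ^ j + (e - i) * e ^ j = e ^ (j + 1)`; for `j = 0`: `X`, `1`). `T = (perRS P Q n).1 - X * (perRS P Q n).2` has degree `≤ e ^ n + 1`, it is not 0
(otherwise `(rat P Q)^[n] z = z` for all finite `z`, infinitely many, contradiction to `per_finite`), and the finite fixed points of `(rat P Q)^[n]` are roots of `T` (see the proof of `per_finite`): `Polynomial.card_roots'`.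
-/

set_option autoImplicit false

open Filter Topology Polynomial Metric Set

namespace Pool.Agent.H44.ND

open Pool.Agent.H44.Fatou Pool.Agent.H32.BT Pool.Agent.H79.Eul Pool.Agent.H79.Par

private theorem sum_deg {e m : ℕ} (c : ℕ → ℂ) {A B : Polynomial ℂ} (hA : A.natDegree ≤ m)
    (hB : B.natDegree ≤ m) :
    (∑ i ∈ Finset.range (e + 1), C (c i) * A ^ i * B ^ (e - i)).natDegree ≤ e * m := by
  refine natDegree_sum_le_of_forall_le _ _ fun i hi => ?_
  have hi' : i ≤ e := Nat.lt_succ_iff.mp (Finset.mem_range.mp hi)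
  have h1 : (C (c i) * A ^ i).natDegree ≤ i * m :=
    (natDegree_C_mul_le _ _).trans (natDegree_pow_le.trans (Nat.mul_le_mul_left i hA))
  have h2 : (B ^ (e - i)).natDegree ≤ (e - i) * m :=
    natDegree_pow_le.trans (Nat.mul_le_mul_left (e - i) hB)
  refine natDegree_mul_le.trans ((add_le_add h1 h2).trans ?_)
  rw [← Nat.add_mul]
  exact Nat.mul_le_mul_right m (by omega)

private theorem rs_deg {P Q : Polynomial ℂ} {e : ℕ} (he : dg P Q = e) (j : ℕ) :
    (perRS P Q j).1.natDegree ≤ e ^ j ∧ (perRS P Q j).2.natDegree ≤ e ^ j := by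
  induction j with
  | zero =>
    show (X : Polynomial ℂ).natDegree ≤ 1 ∧ (1 : Polynomial ℂ).natDegree ≤ 1
    rw [natDegree_X, natDegree_one]
    exact ⟨le_rfl, Nat.zero_le _⟩
  | succ j ih =>
    rw [pow_succ']
    constructor
    · show (∑ i ∈ Finset.range (dg P Q + 1),
        C (P.coeff i) * (perRS P Q j).1 ^ i * (perRS P Q j).2 ^ (dg P Q - i)).natDegree ≤ _
      rw [he]
      exact sum_deg (fun i => P.coeff i) ih.1 ih.2
    · show (∑ i ∈ Finset.range (dg P Q + 1),
        C (Q.coeff i) * (perRS P Q j).1 ^ i * (perRS P Q j).2 ^ (dg P Q - i)).natDegree ≤ _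
      rw [he]
      exact sum_deg (fun i => Q.coeff i) ih.1 ih.2

theorem per_card {P Q : Polynomial ℂ} (h : IsCoprime P Q) {e : ℕ}
    (he : max P.natDegree Q.natDegree = e) (hd : 2 ≤ e) {n : ℕ} (hn : 0 < n) :
    {z : ℂ | (rat P Q)^[n] (z : OnePoint ℂ) = (z : OnePoint ℂ)}.Finite ∧
      {z : ℂ | (rat P Q)^[n] (z : OnePoint ℂ) = (z : OnePoint ℂ)}.ncard ≤ e ^ n + 1 := by
  classical
  have hd' : 2 ≤ max P.natDegree Q.natDegree := by omega
  have hdg : dg P Q = e := he
  obtain ⟨T, hT⟩ : ∃ T : Polynomial ℂ, T = (perRS P Q n).1 - X * (perRS P Q n).2 := ⟨_, rfl⟩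
  have hTe : ∀ z : ℂ, T.eval z = (perRS P Q n).1.eval z - z * (perRS P Q n).2.eval z := by
    intro z
    rw [hT, eval_sub, eval_mul, eval_X]
  obtain ⟨hR, hS⟩ := rs_deg hdg n
  have hTd : T.natDegree ≤ e ^ n + 1 := by
    rw [hT]
    refine (natDegree_sub_le _ _).trans (max_le (hR.trans (Nat.le_succ _)) ?_)
    refine natDegree_mul_le.trans ?_
    rw [natDegree_X]
    omega
  have hfin : {z : ℂ | (rat P Q)^[n] (z : OnePoint ℂ) = (z : OnePoint ℂ)}.Finite := by
    have h1 := per_finite h hd' hn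
    exact h1.preimage (OnePoint.coe_injective.injOn)
  have hT0 : T ≠ 0 := by
    intro hT0
    have hall : ∀ z : ℂ, (rat P Q)^[n] (z : OnePoint ℂ) = (z : OnePoint ℂ) := by
      intro z
      obtain ⟨h1, h2⟩ := perRS_spec h z n
      have h3 := hTe z
      rw [hT0, eval_zero] at h3
      have h4 : (perRS P Q n).2.eval z ≠ 0 := by
        intro h5
        rcases h1 with h6 | h6
        · apply h6
          rw [h5, mul_zero, sub_zero] at h3
          exact h3.symm
        · exact h6 h5
      rw [h2]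
      unfold pt
      rw [if_neg h4]
      congr 1
      rw [div_eq_iff h4]
      linear_combination -h3
    have h1 : {z : ℂ | (rat P Q)^[n] (z : OnePoint ℂ) = (z : OnePoint ℂ)} = Set.univ :=
      Set.eq_univ_of_forall hall
    rw [h1] at hfin
    exact Set.infinite_univ hfin
  refine ⟨hfin, ?_⟩
  have hsub : {z : ℂ | (rat P Q)^[n] (z : OnePoint ℂ) = (z : OnePoint ℂ)} ⊆
      (T.roots.toFinset : Set ℂ) := by
    intro z hz
    rw [Finset.mem_coe, Multiset.mem_toFinset, mem_roots hT0]
    have hx' : (rat P Q)^[n] (z : OnePoint ℂ) = (z : OnePoint ℂ) := hz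
    obtain ⟨h1, h2⟩ := perRS_spec h z n
    rw [h2] at hx'
    have h3 : (z : OnePoint ℂ) = pt z 1 := by
      unfold pt
      rw [if_neg one_ne_zero, div_one]
    rw [h3] at hx'
    have h4 := pt_eq hx'
    show T.eval z = 0
    rw [hTe]
    linear_combination h4
  calc {z : ℂ | (rat P Q)^[n] (z : OnePoint ℂ) = (z : OnePoint ℂ)}.ncard
      ≤ (T.roots.toFinset : Set ℂ).ncard := Set.ncard_le_ncard hsub (Finset.finite_toSet _)
    _ = T.roots.toFinset.card := Set.ncard_coe_finset _
    _ ≤ T.roots.card := Multiset.toFinset_card_le _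
    _ ≤ T.natDegree := card_roots' T
    _ ≤ e ^ n + 1 := hTd

end Pool.Agent.H44.ND
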