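import Pool.Agent.H44.ND.PRX
import Pool.Agent.H44.ND.CRD
import Pool.Agent.H44.NP.DZI
import Pool.Agent.H44.NP.MFL
import Pool.Agent.H47.NN.LNE

/-!
# Module PTB: near a map with a neutral cycle there is a map where the cycle has become attracting

`lv v t = (t • v.1, v.2)`: the line of the maps `t f`.

PROOF of `ptb`. Let `z0 = x 0`, `q0 = (v, z0) ∈ Gp p` (`cyc_wi`, H44/NP/WIT). `g (t, z) = hz p (lv v t, z)` (`= wi p - z`), `M (t, z) = mu p (lv v t, z)`: analytic at `(t, z)` if `(lv v t, z) ∈ Gp p` (`lv` is continuous linear affine in `t`; composition; `gp_open`), in particular near `(1, z0)`. `g (1, z0) = 0`, `M (1, z0) = m`. `g (1, .)` is not identically 0 near `z0` (`hz_ord`, or `per_finite` with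
`wi_rf`), so there is `ε1 ≤ ε` with `(v, z) ∈ Gp p` for `z ∈ closedBall z0 ε1` and `g (1, z) ≠ 0` for `z ∈ closedBall z0 ε1`, `z ≠ z0`. `fderiv ℂ g (t, z) (0, 1) = M (t, z) - 1` (`wi_dz`, chain rule). By compactness, for `t` near 1: `(lv v t, z) ∈ Gp p` for all `z ∈ closedBall z0 ε1`, `t ≠ 0`, `‖lv v t - v‖ < ε`, and `lv v t` is `Gen` (`pol (t • v.1) = C t * pol v.1`).
A point `z ∈ ZS g z0 ε1 t` gives a cycle: `Cyc (pol (lv v t).1) (pol (lv v t).2) p (fun i => wi i (lv v t, z)) (M (t, z))` (`wi_cyc`). `hN`: the points of `ZS` are fixed points of `(Rf (lv v t))^[p]` (`wi_rf`), at most `N = d ^ p + 1` (`per_card`). `hz`: if `M (t, z) = 1` for some `z ∈ ZS` then `t` is in the finite set of `mfin` with `m = 1` (norm 1): for `t` in a punctured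
neighbourhood of 1 this does not happen. Suppose that the conclusion fails: then `1 ≤ ‖M (t, z)‖` for `z ∈ ZS g z0 ε1 t`, `t` near 1. `pr_max`: for all `t` in a punctured neighbourhood of 1 there is a cycle with multiplier of norm 1; but the set of these `t` has measure 0 (`lnull`, H47/NN/LNE): contradiction (a punctured neighbourhood has positive measure).
-/

set_option autoImplicit false

open Filter Topology Metric Set Polynomial

namespace Pool.Agent.H44.ND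

open Pool.Agent.H44.Fatou Pool.Agent.H79.Eul Pool.Agent.H79.Par Pool.Agent.H47.NN Pool.Agent.H44.NP

variable {d : ℕ}

/-- the line of the maps `t f` -/
noncomputable def lv (v : E d) (t : ℂ) : E d := (t • v.1, v.2)

private theorem lv_one (v : E d) : lv v 1 = v := by
  unfold lv
  rw [one_smul]

private theorem lv_an (v : E d) (q : ℂ × ℂ) :
    AnalyticAt ℂ (fun q : ℂ × ℂ => ((lv v q.1, q.2) : E d × ℂ)) q :=
  ((analyticAt_fst.smul analyticAt_const).prod analyticAt_const).prod analyticAt_snd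

private theorem gen_lv {v : E d} (h : Gen d (pol v.1) (pol v.2)) {t : ℂ} (ht : t ≠ 0) :
    Gen d (pol (lv v t).1) (pol (lv v t).2) := by
  show Gen d (pol (t • v.1)) (pol v.2)
  rw [pol_smul]
  refine Gen.smul (t := t⁻¹) (inv_ne_zero ht) ?_
  rw [← mul_assoc, ← C_mul, inv_mul_cancel₀ ht, C_1, one_mul]
  exact h

private theorem fix_of {v : E d} {p : ℕ} {z : ℂ} (hG : (v, z) ∈ Gp p) (hz : hz p (v, z) = 0) :
    (rat (pol v.1) (pol v.2))^[p] (z : OnePoint ℂ) = (z : OnePoint ℂ) := by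
  have h2 := wi_rf p hG
  have h3 : wi p (v, z) = z := sub_eq_zero.1 hz
  rw [h3] at h2
  exact h2

private theorem cyc_of {v : E d} {p : ℕ} {z : ℂ} (hG : (v, z) ∈ Gp p) (hz : hz p (v, z) = 0) :
    Cyc (pol v.1) (pol v.2) p (fun i => wi i (v, z)) (mu p (v, z)) :=
  wi_cyc hG (sub_eq_zero.1 hz)

private theorem dg_of {v : E d} (h : Gen d (pol v.1) (pol v.2)) :
    max (pol v.1).natDegree (pol v.2).natDegree = d := by
  rw [h.ha, h.hb, max_self]

/-- the derivative of `g` in `z` -/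
private theorem g_dz {v : E d} {p : ℕ} {q : ℂ × ℂ} (hG : (lv v q.1, q.2) ∈ Gp p) :
    fderiv ℂ (fun q : ℂ × ℂ => hz p (lv v q.1, q.2)) q (0, 1) = mu p (lv v q.1, q.2) - 1 := by
  have h1 : AnalyticAt ℂ (fun q : ℂ × ℂ => hz p (lv v q.1, q.2)) q :=
    AnalyticAt.comp (g := hz p) (f := fun q : ℂ × ℂ => ((lv v q.1, q.2) : E d × ℂ))
      (hz_an p _ hG) (lv_an v q)
  have d1 := h1.differentiableAt.hasFDerivAt
  have d2 : HasDerivAt (fun w : ℂ => ((q.1, w) : ℂ × ℂ)) ((0, 1) : ℂ × ℂ) q.2 :=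
    (hasDerivAt_const q.2 q.1).prodMk (hasDerivAt_id q.2)
  have d3 := HasFDerivAt.comp_hasDerivAt (f := fun w : ℂ => ((q.1, w) : ℂ × ℂ)) q.2 d1 d2
  have d4 : HasDerivAt (fun w : ℂ => wi p (lv v q.1, w) - w) (mu p (lv v q.1, q.2) - 1) q.2 :=
    (wi_dz p hG).2.sub (hasDerivAt_id q.2)
  exact d3.unique d4

theorem ptb (hd : 2 ≤ d) {v : E d} (h : Gen d (pol v.1) (pol v.2)) {p : ℕ} (hp : 0 < p) {x : ℕ → ℂ}
    {m : ℂ} (hc : Cyc (pol v.1) (pol v.2) p x m) (hm : ‖m‖ = 1) {ε : ℝ} (hε : 0 < ε) :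
    ∃ w ∈ ball v ε, Gen d (pol w.1) (pol w.2) ∧ ∃ (y : ℕ → ℂ) (m' : ℂ),
      Cyc (pol w.1) (pol w.2) p y m' ∧ ‖y 0 - x 0‖ < ε ∧ ‖m'‖ < 1 := by
  obtain ⟨hG0, hw0, hmu0⟩ := cyc_wi hc
  obtain ⟨z0, hz0⟩ : ∃ z0, z0 = x 0 := ⟨_, rfl⟩
  rw [← hz0] at hG0 hw0 hmu0 ⊢
  -- the radius
  have hA : ∃ ε1 : ℝ, 0 < ε1 ∧ ε1 < ε ∧ ∀ z ∈ closedBall z0 ε1, (v, z) ∈ (Gp p : Set (E d × ℂ)) ∧
      (z ≠ z0 → hz p (v, z) ≠ 0) := by
    have hcont : Continuous fun s : ℂ => ((v, s) : E d × ℂ) := by fun_prop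
    have e1 : ∀ᶠ s in 𝓝 z0, (v, s) ∈ (Gp p : Set (E d × ℂ)) :=
      hcont.continuousAt.eventually ((gp_open p).mem_nhds hG0)
    have hfin := (per_card h.cop (dg_of h) hd hp).1
    have e2 : ∀ᶠ s in 𝓝 z0, s ∉ {z : ℂ | (rat (pol v.1) (pol v.2))^[p] (z : OnePoint ℂ) =
        (z : OnePoint ℂ)} \ {z0} :=
      (hfin.subset sdiff_subset).isClosed.isOpen_compl.mem_nhds (by simp)
    obtain ⟨ρ, hρ, hρ2⟩ := Metric.eventually_nhds_iff_ball.1 (e1.and e2)
    refine ⟨min (ε / 2) (ρ / 2), by positivity, ?_, fun z hz' => ?_⟩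
    · exact (min_le_left _ _).trans_lt (by linarith)
    · have hzb : z ∈ ball z0 ρ := by
        rw [mem_ball]
        have h1 := mem_closedBall.1 hz'
        have h2 := min_le_right (ε / 2) (ρ / 2)
        linarith
      obtain ⟨h1, h2⟩ := hρ2 z hzb
      refine ⟨h1, fun hne h0 => h2 ⟨fix_of h1 h0, hne⟩⟩
  obtain ⟨ε1, hε1, hε1', hA⟩ := hA
  obtain ⟨g, hgdef⟩ : ∃ g : ℂ × ℂ → ℂ, g = fun q => hz p (lv v q.1, q.2) := ⟨_, rfl⟩
  obtain ⟨M, hMdef⟩ : ∃ M : ℂ × ℂ → ℂ, M = fun q => mu p (lv v q.1, q.2) := ⟨_, rfl⟩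
  have hlv : Continuous (fun t : ℂ => lv v t) := by
    unfold lv
    fun_prop
  have hlv2 : Continuous (fun q : ℂ × ℂ => ((lv v q.1, q.2) : E d × ℂ)) :=
    (hlv.comp continuous_fst).prodMk continuous_snd
  have hg : ∀ z ∈ closedBall z0 ε1, AnalyticAt ℂ g (1, z) := by
    intro z hz'
    rw [hgdef]
    refine AnalyticAt.comp (g := hz p) (f := fun q : ℂ × ℂ => ((lv v q.1, q.2) : E d × ℂ))
      (hz_an p _ ?_) (lv_an v _)
    show (lv v 1, z) ∈ _
    rw [lv_one]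
    exact (hA z hz').1
  have hM : ∀ z ∈ closedBall z0 ε1, AnalyticAt ℂ M (1, z) := by
    intro z hz'
    rw [hMdef]
    refine AnalyticAt.comp (g := mu p) (f := fun q : ℂ × ℂ => ((lv v q.1, q.2) : E d × ℂ))
      (mu_an p ?_) (lv_an v _)
    show (lv v 1, z) ∈ _
    rw [lv_one]
    exact (hA z hz').1
  have h0 : g (1, z0) = 0 := by
    rw [hgdef]
    show hz p (lv v 1, z0) = 0
    rw [lv_one]
    exact sub_eq_zero.2 hw0
  have hs : ∀ z ∈ closedBall z0 ε1, z ≠ z0 → g (1, z) ≠ 0 := by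
    intro z hz' hne
    rw [hgdef]
    show hz p (lv v 1, z) ≠ 0
    rw [lv_one]
    exact (hA z hz').2 hne
  have hM0 : ‖M (1, z0)‖ = 1 := by
    rw [hMdef]
    show ‖mu p (lv v 1, z0)‖ = 1
    rw [lv_one, hmu0, hm]
  -- near `t = 1`
  have eG : ∀ᶠ t in 𝓝 (1 : ℂ), ∀ z ∈ closedBall z0 ε1, (lv v t, z) ∈ (Gp p : Set (E d × ℂ)) := by
    refine IsCompact.eventually_forall_of_forall_eventually (isCompact_closedBall z0 ε1)
      (P := fun t z => (lv v t, z) ∈ (Gp p : Set (E d × ℂ))) fun z hz' => ?_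
    refine hlv2.continuousAt.eventually ((gp_open p).mem_nhds ?_)
    show (lv v 1, z) ∈ _
    rw [lv_one]
    exact (hA z hz').1
  have e0 : ∀ᶠ t in 𝓝 (1 : ℂ), t ≠ 0 := eventually_ne_nhds one_ne_zero
  have eb : ∀ᶠ t in 𝓝 (1 : ℂ), lv v t ∈ ball v ε := by
    have e : ContinuousAt (fun t : ℂ => lv v t) 1 := hlv.continuousAt
    refine e.eventually (isOpen_ball.mem_nhds ?_)
    show lv v 1 ∈ ball v ε
    rw [lv_one]
    exact mem_ball_self hε
  have hball : ball z0 ε1 ⊆ closedBall z0 ε1 := ball_subset_closedBall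
  have hN : ∀ᶠ t in 𝓝 (1 : ℂ), (ZS g z0 ε1 t).ncard ≤ d ^ p + 1 := by
    filter_upwards [eG, e0] with t ht ht0
    have hgen := gen_lv h ht0
    obtain ⟨hf, hcd⟩ := per_card hgen.cop (dg_of hgen) hd hp
    refine (Set.ncard_le_ncard ?_ hf).trans hcd
    rintro z ⟨hz1, hz2⟩
    rw [hgdef] at hz2
    exact fix_of (ht z (hball hz1)) hz2
  have hT1 := mfin h hp (m := 1) (by simp)
  have hne1 : ∀ᶠ t in 𝓝[≠] (1 : ℂ), t ∉ {t : ℂ | ∃ x : ℕ → ℂ, Cyc (C t * pol v.1) (pol v.2) p x 1} := by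
    have e2 : ∀ᶠ t in 𝓝 (1 : ℂ), t ∉ {t : ℂ | ∃ x : ℕ → ℂ, Cyc (C t * pol v.1) (pol v.2) p x 1} \ {1} :=
      (hT1.subset sdiff_subset).isClosed.isOpen_compl.mem_nhds (by simp)
    filter_upwards [e2.filter_mono nhdsWithin_le_nhds, self_mem_nhdsWithin] with t ht ht1 ht2
    exact ht ⟨ht2, ht1⟩
  have hzz : ∀ᶠ t in 𝓝[≠] (1 : ℂ), ∀ z ∈ ball z0 ε1, g (t, z) = 0 →
      fderiv ℂ g (t, z) (0, 1) ≠ 0 := by
    filter_upwards [eG.filter_mono nhdsWithin_le_nhds, hne1] with t ht ht1 z hz' hgz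
    rw [hgdef, g_dz (ht z (hball hz'))]
    intro hmu
    apply ht1
    rw [hgdef] at hgz
    have hcy := cyc_of (ht z (hball hz')) hgz
    have hmu' : mu p (lv v t, z) = 1 := sub_eq_zero.1 hmu
    rw [hmu'] at hcy
    refine ⟨fun i => wi i (lv v t, z), ?_⟩
    rw [← pol_smul]
    exact hcy
  by_contra hcon
  push Not at hcon
  have h1 : ∀ᶠ t in 𝓝[≠] (1 : ℂ), ∀ z ∈ ZS g z0 ε1 t, 1 ≤ ‖M (t, z)‖ := by
    filter_upwards [eG.filter_mono nhdsWithin_le_nhds, e0.filter_mono nhdsWithin_le_nhds,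
      eb.filter_mono nhdsWithin_le_nhds] with t ht ht0 htb z hz'
    obtain ⟨hz1, hz2⟩ := hz'
    rw [hgdef] at hz2
    have hcy := cyc_of (ht z (hball hz1)) hz2
    rw [hMdef]
    refine hcon _ htb (gen_lv h ht0) _ _ hcy ?_
    show ‖z - z0‖ < ε
    rw [← dist_eq_norm]
    exact (mem_ball.1 hz1).trans hε1'
  have hfinal := pr_max hε1 hg hM h0 hs hM0 hN hzz h1
  have hnull := lnull h hp
  have hsub : ∀ᶠ t in 𝓝[≠] (1 : ℂ),
      t ∈ {t : ℂ | ∃ x m, Cyc (C t * pol v.1) (pol v.2) p x m ∧ ‖m‖ = 1} := by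
    filter_upwards [eG.filter_mono nhdsWithin_le_nhds, hfinal] with t ht ht2
    obtain ⟨z, ⟨hz1, hz2⟩, hz3⟩ := ht2
    rw [hgdef] at hz2
    have hcy := cyc_of (ht z (hball hz1)) hz2
    rw [hMdef] at hz3
    refine ⟨fun i => wi i (lv v t, z), mu p (lv v t, z), ?_, hz3⟩
    rw [← pol_smul]
    exact hcy
  have hmem : {t : ℂ | ∃ x m, Cyc (C t * pol v.1) (pol v.2) p x m ∧ ‖m‖ = 1} ∪ {1} ∈ 𝓝 (1 : ℂ) := by
    rw [Filter.Eventually, mem_nhdsWithin_iff_exists_mem_nhds_inter] at hsub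
    obtain ⟨U, hU, hU2⟩ := hsub
    filter_upwards [hU] with t ht
    by_cases ht1 : t = 1
    · right
      exact ht1
    · left
      exact hU2 ⟨ht, ht1⟩
  have hpos := MeasureTheory.Measure.measure_pos_of_mem_nhds MeasureTheory.volume hmem
  have hzero : MeasureTheory.volume
      ({t : ℂ | ∃ x m, Cyc (C t * pol v.1) (pol v.2) p x m ∧ ‖m‖ = 1} ∪ {1}) = 0 :=
    MeasureTheory.measure_union_null hnull (MeasureTheory.measure_singleton _)
  rw [hzero] at hpos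
  exact lt_irrefl _ hpos

end Pool.Agent.H44.ND
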