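import Pool.Agent.H47.NN.FIN
import Pool.Agent.H32.BT.Trap
import Pool.Agent.H32.BT.Mult
import Pool.Agent.H32.BT.Stable
import Pool.Agent.H47.RJ.REP
import Pool.Agent.H79.Par.SinkMult

/-!
# Module SNK: cycles with multiplier of modulus less than one are sinks; neutral cycles are not attracted

PROOFS. `cyc_rf`: `(Rf v)^[i] (x 0) = x i` for `i ≤ p` (`rat_coe_of_ne`; `hc.step`), so `(Rf v)^[p] (x 0) = x 0`. `cyc_sink`: `att_or_rep_c` (H47/RJ/REP) gives a sink or a repelling point; or directly: `it v p` is near `x 0` holomorphic with derivative `m` at the fixed point `x 0` (see the proof of `att_or_rep_c`, `rp_att`), so for `‖m‖ < 1` the point is a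
sink: `trap_per` (H32/BT/Trap) with `v0 = v` gives a closed ball mapped into itself by `it v p` with contraction factor `q < 1`, so `it v (p k) z → x 0`, and `rat_it`. In the case of the alternative `Rep` of `att_or_rep_c`: impossible (`‖m‖ < 1`: `g` contracts and `(Rf v)^[p]` contracts: `chord a x = chord a (G (g x)) ≤ ..`); the direct way is shorter. `x` may
be replaced by the periodic extension (`x i` for `i ≥ p` is arbitrary in `Cyc`).
`neu_na`: suppose `Att (Rf v) (x 0)`, `‖m‖ = 1`: `(Rf v)^[n k] (x 0) → a`, a sink of period `n`. Along the multiples of `p` the sequence is constant (`(Rf v)^[n p k] (x 0) = x 0`), so `a = x 0`, and `x 0` is a sink of period `q = n * p` (`isSink_mul`, H32/BT/Top). `F = it v q` is holomorphic on a disc `N` about `x 0` (the orbit of `x 0` is finite, the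
first `q` iterates of nearby points too: `exp1`-type lemma or continuity), `(Rf v)^[q] w = F w` for `w ∈ N` (`rat_it`, H79/Par/It), `F (x 0) = x 0`, and `deriv F (x 0) = m ^ n` (chain rule along the periodic orbit; or: `deriv (it v p) (x 0) = m` (`wi_dz`-type computation, see `wl_der` in H47/NN/LOC or the proof of `att_or_rep_c`) and `it v (n p) = (it v p)^[n]` near `x 0`).
By `sink_stable` (H32/BT/Stable; `exists_not_att`) there is a disc `V` about `x 0` with `(Rf v)^[q k] w ∈ N` for all `w ∈ V` and all `k`: so `F^[k]` is holomorphic on `V` with values in `N`, `F^[k] w → x 0` for all `w` near `x 0`, and `deriv (F^[k]) (x 0) = m ^ (n k)` has norm 1. By Cauchy's formula on a small circle and dominated convergence (values in the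
bounded set `N`, pointwise convergence to the constant `x 0`) `deriv (F^[k]) (x 0) → 0`: contradiction.
-/

set_option autoImplicit false

open Filter Topology Metric Set Polynomial

namespace Pool.Agent.H44.ND

open Pool.Agent.H44.Fatou Pool.Agent.H32.BT Pool.Agent.H79.Eul Pool.Agent.H79.Par
open Pool.Agent.H35.EX Pool.Agent.H47.NN

variable {d : ℕ} {v : E d}

private theorem snk_orb {p : ℕ} {x : ℕ → ℂ} {m : ℂ} (hc : Cyc (pol v.1) (pol v.2) p x m) :
    Orb v x p := by
  intro j hj
  refine ⟨?_, ?_⟩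
  · rw [← pol_eval]
    exact hc.ne j hj
  · rw [← pol_eval, ← pol_eval]
    exact hc.step j hj

private theorem snk_it {p : ℕ} {x : ℕ → ℂ} {m : ℂ} (hc : Cyc (pol v.1) (pol v.2) p x m) :
    ∀ i, i ≤ p → (Rf v)^[i] (x 0 : OnePoint ℂ) = (x i : OnePoint ℂ) := by
  intro i
  induction i with
  | zero => intro _; rfl
  | succ i ih =>
    intro hi
    rw [Function.iterate_succ_apply', ih (by omega)]
    unfold Rf
    rw [rat_coe_of_ne (hc.ne i (by omega)), hc.step i (by omega)]

theorem cyc_rf {p : ℕ} {x : ℕ → ℂ} {m : ℂ} (hc : Cyc (pol v.1) (pol v.2) p x m) :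
    (Rf v)^[p] (x 0 : OnePoint ℂ) = (x 0 : OnePoint ℂ) := by
  rw [snk_it hc p le_rfl, hc.per]

private theorem snk_wv (z : ℂ) : wv v z = (Wr (pol v.1) (pol v.2)).eval z := by
  have h1 := wv_cf (pol_deg v.1) (pol_deg v.2) z
  rw [cf_pol, cf_pol] at h1
  exact h1

theorem cyc_sink (hcop : IsCoprime (pol v.1) (pol v.2)) {p : ℕ} (hp : 0 < p) {x : ℕ → ℂ} {m : ℂ}
    (hc : Cyc (pol v.1) (pol v.2) p x m) (hm : ‖m‖ < 1) : IsSink (Rf v) (x 0 : OnePoint ℂ) p := by
  have ho := snk_orb hc
  have hmul : ‖∏ j ∈ Finset.range p, wv v (x j) / ev v.2 (x j) ^ 2‖ < 1 := by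
    have h1 : ∏ j ∈ Finset.range p, wv v (x j) / ev v.2 (x j) ^ 2 = m := by
      rw [← hc.mul]
      refine Finset.prod_congr rfl fun i _ => ?_
      rw [snk_wv, pol_eval]
    rw [h1]
    exact hm
  obtain ⟨r, q, L, hr, hq0, hq1, -, -, hev⟩ := trap_per v x p hp hc.per (fun j hj => (ho j hj).1)
    (fun j hj => (ho j hj).2) hmul univ univ_mem
  have hv := hev.self_of_nhds
  have hx0 : x 0 ∈ closedBall (x 0) r := mem_closedBall_self hr.le
  have hfix : it v p (x 0) = x 0 := by
    rw [orb_it ho p le_rfl]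
    exact hc.per
  have hcon : ∀ z ∈ closedBall (x 0) r, ‖it v p z - x 0‖ ≤ q * ‖z - x 0‖ := by
    intro z hz
    have h1 := ((hv z hz).2.2.2 (x 0) hx0).1
    rwa [hfix] at h1
  have hit : ∀ (k : ℕ) (z : ℂ), z ∈ closedBall (x 0) r →
      ∃ w : ℂ, (Rf v)^[p * k] (z : OnePoint ℂ) = (w : OnePoint ℂ) ∧ w ∈ closedBall (x 0) r ∧
        ‖w - x 0‖ ≤ q ^ k * ‖z - x 0‖ := by
    intro k z hz
    induction k with
    | zero => exact ⟨z, rfl, hz, by rw [pow_zero, one_mul]⟩
    | succ k ih =>
      obtain ⟨w, hw, hwb, hw'⟩ := ih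
      refine ⟨it v p w, ?_, ball_subset_closedBall (hv w hwb).2.1, ?_⟩
      · rw [Nat.mul_succ, Nat.add_comm, Function.iterate_add_apply, hw, rat_it (hv w hwb).1]
      · refine (hcon w hwb).trans ?_
        rw [pow_succ]
        have := mul_le_mul_of_nonneg_left hw' hq0
        linarith
  refine ⟨hp, cyc_rf hc, (fun z : ℂ => (z : OnePoint ℂ)) '' closedBall (x 0) r, ?_, ?_⟩
  · rw [OnePoint.nhds_coe_eq]
    exact image_mem_map (closedBall_mem_nhds (x 0) hr)
  · rintro _ ⟨z, hz, rfl⟩
    choose w hw1 hw2 hw3 using fun k => hit k z hz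
    have h1 : Tendsto w atTop (𝓝 (x 0)) := by
      rw [tendsto_iff_norm_sub_tendsto_zero]
      have h2 : Tendsto (fun k : ℕ => q ^ k * ‖z - x 0‖) atTop (𝓝 0) := by
        have h3 := (tendsto_pow_atTop_nhds_zero_of_lt_one hq0 hq1).mul_const ‖z - x 0‖
        rwa [zero_mul] at h3
      exact squeeze_zero (fun k => norm_nonneg _) hw3 h2
    have h2 := (OnePoint.continuous_coe.tendsto (x 0)).comp h1
    refine h2.congr fun k => ?_
    exact (hw1 k).symm

theorem neu_na (hd : 2 ≤ d) (hcop : IsCoprime (pol v.1) (pol v.2))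
    (hdeg : max (pol v.1).natDegree (pol v.2).natDegree = d) {p : ℕ} (hp : 0 < p) {x : ℕ → ℂ} {m : ℂ}
    (hc : Cyc (pol v.1) (pol v.2) p x m) (hm : ‖m‖ = 1) : ¬ Att (Rf v) (x 0 : OnePoint ℂ) := by
  rintro ⟨a, n, hs, ht⟩
  have hfix := cyc_rf hc
  have hn := hs.1
  -- `a = x 0`
  have hfixk : ∀ k, (Rf v)^[p * k] (x 0 : OnePoint ℂ) = (x 0 : OnePoint ℂ) := by
    intro k
    rw [Function.iterate_mul]
    exact Function.iterate_fixed hfix k
  have ha : a = (x 0 : OnePoint ℂ) := by
    have h1 : Tendsto (fun k : ℕ => (Rf v)^[n * (p * k)] (x 0 : OnePoint ℂ)) atTop (𝓝 a) :=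
      ht.comp (tendsto_id.const_mul_atTop' hp)
    have h2 : (fun k : ℕ => (Rf v)^[n * (p * k)] (x 0 : OnePoint ℂ)) =
        fun _ => (x 0 : OnePoint ℂ) := by
      funext k
      have h3 : n * (p * k) = p * (n * k) := by ring
      rw [h3, hfixk]
    rw [h2] at h1
    exact tendsto_nhds_unique h1 tendsto_const_nhds
  subst ha
  have hs2 : IsSink (Rf v) (x 0 : OnePoint ℂ) (n * p) := isSink_mul hs hp
  -- the orbit is finite
  have hmod : ∀ j, (Rf v)^[j] (x 0 : OnePoint ℂ) = (x (j % p) : OnePoint ℂ) := by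
    intro j
    have h1 : j = j % p + p * (j / p) := (Nat.mod_add_div j p).symm
    conv_lhs => rw [h1, Function.iterate_add_apply, hfixk]
    exact snk_it hc (j % p) (Nat.mod_lt j hp).le
  have hfin : ∀ j, (rat (pol v.1) (pol v.2))^[j] (x 0 : OnePoint ℂ) ≠ OnePoint.infty := by
    intro j h
    have h1 := hmod j
    unfold Rf at h1
    rw [h1] at h
    exact OnePoint.coe_ne_infty _ h
  obtain ⟨y, -, hy, -, -, -, hlt⟩ := sink_mult_fin hcop (by omega) hs2 hfin
  have hyx : ∀ j, y j = x (j % p) := by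
    intro j
    have h1 := hy j
    have h2 := hmod j
    unfold Rf at h2
    rw [h1] at h2
    exact OnePoint.coe_eq_coe.1 h2
  have hprod : ∀ k, ∏ j ∈ Finset.range (p * k),
      (Wr (pol v.1) (pol v.2)).eval (y j) / ((pol v.2).eval (y j)) ^ 2 = m ^ k := by
    intro k
    induction k with
    | zero => simp
    | succ k ih =>
      rw [Nat.mul_succ, Finset.prod_range_add, ih, pow_succ]
      congr 1
      rw [← hc.mul]
      refine Finset.prod_congr rfl fun i hi => ?_
      rw [hyx, Nat.mul_add_mod, Nat.mod_eq_of_lt (Finset.mem_range.1 hi)]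
  rw [Nat.mul_comm n p, hprod, norm_pow, hm, one_pow] at hlt
  exact lt_irrefl _ hlt

end Pool.Agent.H44.ND
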