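import Pool.Agent.H44.ND.UPN
import Pool.Agent.H44.ND.JMP
import Pool.Agent.H44.ND.PTB
import Pool.Agent.H44.ND.SNK
import Pool.Agent.H44.ND.GCH
import Pool.Agent.H47.NM.UNI
import Pool.Agent.H47.NM.CEX
import Pool.Agent.H76.SU.SPF

/-!
# Module RND: the exceptional set of THEOREM RC is nowhere dense

PROOFS. `concl_conj`: `IsCrit`: `isCrit_conj`; `JS` (complement of `FS`): `fs_conj` (H76/SU/SPF); `Om`: `y ∈ Om f x ↔ φ y ∈ Om g (φ x)` (homeomorphism, `iter_conj`); `HypMap`: `isCrit_conj`, `att_conj`.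
`up_neu`: generic `v` with a neutral cycle `x`: `z0 = x 0` is not attracted (`neu_na`), `na_jump` gives `ε1`; for `ε` apply `ptb` with `ε2 ≤ min ε ε1` (and such that `‖y 0 - x 0‖ < ε2` gives chordal distance `< ε1`: the chordal distance of finite points is at most the distance): the new cycle is a sink (`cyc_sink`; `Gen` gives coprime, degree `d`), so `NA v + 1 ≤ NA w`.
`gen_case`: `w` generic, infinity not periodic. If `NNeu w` fails there is a neutral cycle: `up_neu`. Otherwise `AR w` (`ar_of_nneu`). If a critical orbit lands in an expanding set `K`: `tg_of_exp` (H47/NM/CEX) gives a critical point with `TG`, whose first component is `Summ`: `up_summ`. Otherwise `good` (H47/NM/UNI): `Concl`.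
`rc_nd`: the set is contained in the set of `up_nwd`: `gen_ch`, `gen_case` for `L v`; `Concl (Rf (L v))` implies `Concl (Rf v)` (`concl_conj`), `Up (L v)` implies `Up v` (`up_chart`).
-/

set_option autoImplicit false

open Filter Topology Polynomial Metric Set

namespace Pool.Agent.H44.ND

open Pool.Agent.H44.Fatou Pool.Agent.H32.BT Pool.Agent.H79.Eul Pool.Agent.H79.Par
open Pool.Agent.H35.EX Pool.Agent.H44.RR Pool.Agent.H56.HR Pool.Agent.H44.RC Pool.Agent.H47.NN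
open Pool.Agent.H47.RJ Pool.Agent.H47.NM Pool.Agent.H79.ES

variable {d : ℕ}

private theorem rnd_le (z w : ℂ) : chord (z : OnePoint ℂ) (w : OnePoint ℂ) ≤ ‖z - w‖ := by
  have h1 : chord (z : OnePoint ℂ) (w : OnePoint ℂ) =
      ‖z - w‖ / (√(1 + ‖z‖ ^ 2) * √(1 + ‖w‖ ^ 2)) := rfl
  rw [h1]
  have h2 : ∀ u : ℂ, 1 ≤ √(1 + ‖u‖ ^ 2) := fun u => by
    rw [Real.one_le_sqrt]
    nlinarith [sq_nonneg ‖u‖]
  exact div_le_self (norm_nonneg _) (one_le_mul_of_one_le_of_one_le (h2 z) (h2 w))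

private theorem om_conj {f g : OnePoint ℂ → OnePoint ℂ} {φ : OnePoint ℂ ≃ₜ OnePoint ℂ}
    (hφ : ∀ x, g (φ x) = φ (f x)) {x y : OnePoint ℂ} : φ y ∈ Om g (φ x) ↔ y ∈ Om f x := by
  constructor
  · intro h U hU
    have h1 : φ.symm ⁻¹' U ∈ 𝓝 (φ y) := by
      refine φ.symm.continuous.continuousAt.preimage_mem_nhds ?_
      rwa [Homeomorph.symm_apply_apply]
    refine (h _ h1).mono fun n hn => ?_
    rw [iter_conj φ hφ, mem_preimage, Homeomorph.symm_apply_apply] at hn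
    exact hn
  · intro h U hU
    have h1 : φ ⁻¹' U ∈ 𝓝 y := φ.continuous.continuousAt.preimage_mem_nhds hU
    refine (h _ h1).mono fun n hn => ?_
    rw [iter_conj φ hφ]
    exact hn

theorem concl_conj {f g : OnePoint ℂ → OnePoint ℂ} {φ : OnePoint ℂ ≃ₜ OnePoint ℂ} {K : ℝ}
    (hK : ∀ x y, chord (φ x) (φ y) ≤ K * chord x y ∧ chord x y ≤ K * chord (φ x) (φ y))
    (hφ : ∀ x, g (φ x) = φ (f x)) (h : Concl g) : Concl f := by
  have hJ : ∀ x, φ x ∈ JS g ↔ x ∈ JS f := fun x => not_congr (Pool.Agent.H76.SU.fs_conj hK hφ x)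
  obtain ⟨h1, h2⟩ := h
  have hr : (∃ r, IsCrit g r ∧ r ∈ JS g ∧ r ∈ Om g r) → ∃ r, IsCrit f r ∧ r ∈ JS f ∧ r ∈ Om f r := by
    rintro ⟨r, h3, h4, h5⟩
    obtain ⟨r, rfl⟩ := φ.surjective r
    exact ⟨r, (isCrit_conj φ hφ r).1 h3, (hJ r).1 h4, (om_conj hφ).1 h5⟩
  refine ⟨fun c hc hcJ => ?_, ?_⟩
  · obtain ⟨r, h3, h4, h5, z, h6, h7⟩ := h1 (φ c) ((isCrit_conj φ hφ c).2 hc) ((hJ c).2 hcJ)
    obtain ⟨r, rfl⟩ := φ.surjective r
    obtain ⟨z, rfl⟩ := φ.surjective z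
    exact ⟨r, (isCrit_conj φ hφ r).1 h3, (hJ r).1 h4, (om_conj hφ).1 h5, z, (om_conj hφ).1 h6,
      (om_conj hφ).1 h7⟩
  · rcases h2 with h2 | h2
    · exact Or.inl fun c hc => (att_conj φ hφ c).1 (h2 (φ c) ((isCrit_conj φ hφ c).2 hc))
    · exact Or.inr (hr h2)

private theorem gen_deg {a b : ℂ[X]} (h : Gen d a b) : max a.natDegree b.natDegree = d := by
  rw [h.ha, h.hb, max_self]

theorem up_neu (hd : 2 ≤ d) {v : E d} (h : Gen d (pol v.1) (pol v.2)) {p : ℕ} (hp : 0 < p)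
    {x : ℕ → ℂ} {m : ℂ} (hc : Cyc (pol v.1) (pol v.2) p x m) (hm : ‖m‖ = 1) : Up v := by
  intro ε hε
  have hdeg := gen_deg h
  have hna := neu_na hd h.cop hdeg hp hc hm
  obtain ⟨ε1, hε1, h1⟩ := na_jump hd h.cop hdeg hna
  obtain ⟨w, hw, hwG, y, m', hyc, hyx, hm'⟩ := ptb hd h hp hc hm (lt_min hε hε1)
  refine ⟨w, ball_subset_ball (min_le_left _ _) hw, hwG.cop, gen_deg hwG, ?_⟩
  refine h1 w (ball_subset_ball (min_le_right _ _) hw) hwG.cop (gen_deg hwG) (y 0) p ?_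
    (cyc_sink hwG.cop hp hyc hm')
  refine (rnd_le _ _).trans_lt ?_
  rw [norm_sub_rev]
  exact hyx.trans_le (min_le_right _ _)

theorem gen_case (hd : 2 ≤ d) {w : E d} (h : Gen d (pol w.1) (pol w.2))
    (hi : ∀ p : ℕ, 0 < p → (Rf w)^[p] OnePoint.infty ≠ OnePoint.infty) :
    Concl (Rf w) ∨ Up w := by
  have hdeg := gen_deg h
  by_cases hN : NNeu w
  · have hAR := ar_of_nneu (by omega) h.cop hdeg hN
    by_cases hE : ∃ c, IsCrit (Rf w) c ∧ ∃ K : Set (OnePoint ℂ), Expd (Rf w) K ∧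
        ∃ m : ℕ, (Rf w)^[m] c ∈ K
    · obtain ⟨c, hc, K, hK, m, hm⟩ := hE
      obtain ⟨c1, hc1, hT⟩ := tg_of_exp hd h.cop hdeg hc hK hm
      exact Or.inr (up_summ hd h.cop hdeg hc1 hT.1)
    · refine Or.inl (good hd h.cop hdeg hAR fun c hc hK => hE ⟨c, hc, hK⟩)
  · right
    have h1 : ¬ ∀ p : ℕ, 0 < p → ∀ x m, Cyc (pol w.1) (pol w.2) p x m → ‖m‖ ≠ 1 :=
      fun h2 => hN ⟨hi, h2⟩
    push_neg at h1
    obtain ⟨p, hp, x, m, hc, hm⟩ := h1
    exact up_neu hd h hp hc hm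

theorem rc_nd (hd : 2 ≤ d) :
    IsNowhereDense {v : E d | IsCoprime (pol v.1) (pol v.2) ∧
      max (pol v.1).natDegree (pol v.2).natDegree = d ∧ ¬ Concl (Rf v)} := by
  refine (up_nwd hd).mono ?_
  rintro v ⟨hcop, hdeg, hn⟩
  refine ⟨hcop, hdeg, ?_⟩
  obtain ⟨L, G, φ, K, _, hG, hGL, hLG, hconj, hK, hGen, hinf⟩ := gen_ch hd hcop hdeg
  have hφ := (hconj v hcop hdeg).2.2
  rcases gen_case hd hGen hinf with h1 | h1
  · exact absurd (concl_conj hK hφ h1) hn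
  · exact up_chart hd hG hGL hLG (fun v h2 h3 => (hconj v h2 h3).2.2) hcop hdeg h1

end Pool.Agent.H44.ND
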