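import Pool.Agent.H32.BT.Branch
import Pool.Agent.H32.BT.NotAtt
import Pool.Agent.H32.BT.Mult
import Pool.Agent.H32.BT.Mob
import Pool.Agent.H80.AJ.Cover
import Pool.Agent.H84.PT.Shp

/-!
# Module SKC: an attracting cycle attracts a critical point (Fatou)

PROOF. Suppose not. (0) Some `x` is not attracted to any sink (`exists_not_att`, H32/BT/NotAtt). If `x = s` is finite conjugate by `exists_mob s` (`isCrit_conj`, `isSink_conj`, `att_conj`, `tend_conj` in H32/BT/Top, as in the proof of `sink_stable` in H32/BT/Stable): so we may assume that infinity is not attracted. `f = rat P Q`.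
(1) `z` is finite (`att_sink`), `sink_mult` (H32/BT/Mult): the orbit `x j` of `z` is finite and the multiplier `l` (the product) has modulus `< 1`; `f^[n]` is near `z` a holomorphic function `F` with derivative `l` at `z`. Take `r0 > 0` with `f^[n * k] w → z` for all `w ∈ ball z r0` (`IsSink`).
(2) Let `y ∈ ball z r0`, `f^[n * k] u = y`. For `i ≤ n k` `f^[i] u ≠ ∞` (`u` is attracted, so is `f^[i] u`, `att_iter`), and for `i < n k` `f^[i] u` is not critical, otherwise `c = f^[i] u`, `m = n k - i` satisfy the conclusion. So `branch` (H32/BT/Branch) gives `G k : ball z r0 → ℂ` holomorphic with `G k z = z`, `f^[n * k] (G k w) = w`. `G k` is injective.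
(3) Near `z` the map `f^[n * k]` is `F^[k]`, with derivative `l ^ k` at `z` (`F z = z`), and `G k` is continuous with `G k z = z`: `l ^ k * deriv (G k) z = 1`. So `l ≠ 0` and `‖deriv (G k) z‖ = ‖l‖ ^ (- k) → ∞`.
(4) There is a finite `w2` with `f w2 = ∞`: if `Q` is constant then `f` is a polynomial of degree `≥ 2` and infinity is a sink (`inf_sink`, H84/PT/Shp), contradiction; otherwise a root of `Q`. `w2` is not attracted, but all points of `G k '' ball z r0` are attracted, so `w2 ∉ G k '' ball z r0`. By the covering theorem (H80/AJ/Cover, constant 1/16, or any Koebe 1/4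
theorem) `ball z (r0 * ‖deriv (G k) z‖ / 16) ⊆ G k '' ball z r0`, which contains `w2` for large `k`: contradiction.
-/

set_option autoImplicit false

open Filter Topology Polynomial Metric Set

namespace Pool.Agent.H44.ND

open Pool.Agent.H44.Fatou Pool.Agent.H32.BT

private theorem skc_pole {P Q : Polynomial ℂ} (h : IsCoprime P Q)
    (hd : 2 ≤ max P.natDegree Q.natDegree) (hinf : ¬ Att (rat P Q) OnePoint.infty) :
    ∃ w : ℂ, rat P Q (w : OnePoint ℂ) = OnePoint.infty := by
  by_cases hQ : Q.natDegree = 0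
  · exfalso
    apply hinf
    obtain ⟨q, hq⟩ : ∃ q, Q = C q := ⟨_, eq_C_of_natDegree_eq_zero hQ⟩
    have hP : 2 ≤ P.natDegree := by
      rw [hQ] at hd
      simpa using hd
    have hq0 : q ≠ 0 := by
      rintro rfl
      rw [C_0] at hq
      rw [hq, isCoprime_zero_right] at h
      have := natDegree_eq_zero_of_isUnit h
      omega
    have hT : (C q⁻¹ * P).natDegree = P.natDegree := natDegree_C_mul (inv_ne_zero hq0)
    have e : rat P Q = rat (C q⁻¹ * P) 1 := by
      funext u
      induction u using OnePoint.rec with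
      | infty =>
        rw [Pool.Agent.H84.PT.inf_fix (by omega), rat_infty, hq, dg, natDegree_C, Nat.max_zero,
          coeff_C, if_neg (by omega)]
        unfold pt
        rw [if_pos rfl]
      | coe u =>
        rw [rat_coe, rat_coe, hq, eval_C, eval_mul, eval_C, eval_one]
        unfold pt
        rw [if_neg hq0, if_neg one_ne_zero, div_one]
        congr 1
        rw [div_eq_inv_mul]
    rw [e]
    exact att_sink (Pool.Agent.H84.PT.inf_sink (by omega))
  · obtain ⟨w, hw⟩ := Complex.exists_root (f := Q) (by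
      rw [← natDegree_pos_iff_degree_pos]
      omega)
    refine ⟨w, ?_⟩
    have hw' : Q.eval w = 0 := hw
    rw [rat_coe, hw']
    unfold pt
    rw [if_pos rfl]

private theorem skc_core {P Q : Polynomial ℂ} (h : IsCoprime P Q)
    (hd : 2 ≤ max P.natDegree Q.natDegree) (hinf : ¬ Att (rat P Q) OnePoint.infty)
    {z : ℂ} {n : ℕ} (hz : IsSink (rat P Q) (z : OnePoint ℂ) n) :
    ∃ c, IsCrit (rat P Q) c ∧ ∃ m : ℕ,
      Tendsto (fun k : ℕ => (rat P Q)^[n * k] ((rat P Q)^[m] c)) atTop
        (𝓝 (z : OnePoint ℂ)) := by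
  by_contra hcon
  have hf := rat_continuous h
  obtain ⟨x, hx0, hxj, -, -, -, hl⟩ := sink_mult h (by omega) hinf hz
  obtain ⟨g, hg⟩ : ∃ g : ℕ → ℂ, ∀ j, g j = (Wr P Q).eval (x j) / (Q.eval (x j)) ^ 2 :=
    ⟨_, fun _ => rfl⟩
  have hl' : ‖∏ j ∈ Finset.range n, g j‖ < 1 := by
    simp only [hg]
    exact hl
  obtain ⟨l, hlg⟩ : ∃ l, l = ∏ j ∈ Finset.range n, g j := ⟨_, rfl⟩
  rw [← hlg] at hl'
  -- the ball
  obtain ⟨hn, hzn, U, hU, hUa⟩ := id hz
  have hU' : (fun w : ℂ => (w : OnePoint ℂ)) ⁻¹' U ∈ 𝓝 z :=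
    OnePoint.continuous_coe.continuousAt.preimage_mem_nhds hU
  obtain ⟨r0, hr0, hball⟩ := Metric.mem_nhds_iff.1 hU'
  have hba : ∀ w ∈ ball z r0, Tendsto (fun k : ℕ => (rat P Q)^[n * k] (w : OnePoint ℂ)) atTop
      (𝓝 (z : OnePoint ℂ)) := fun w hw => hUa _ (hball hw)
  have hatt : ∀ w ∈ ball z r0, Att (rat P Q) (w : OnePoint ℂ) := fun w hw =>
    ⟨_, n, hz, hba w hw⟩
  have hfin : ∀ u : OnePoint ℂ, Att (rat P Q) u → ∀ j, (rat P Q)^[j] u ≠ OnePoint.infty := by
    intro u hu j hj
    apply hinf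
    rw [← hj]
    exact (att_iter hf u j).2 hu
  have hW : ∀ w ∈ ball z r0, ∀ j, (rat P Q)^[j] (w : OnePoint ℂ) ≠ OnePoint.infty :=
    fun w hw => hfin _ (hatt w hw)
  have hzk : ∀ k, (rat P Q)^[n * k] (z : OnePoint ℂ) = (z : OnePoint ℂ) := by
    intro k
    rw [Function.iterate_mul]
    exact Function.iterate_fixed hzn k
  -- the derivative at `z`
  have hper : ∀ k i, g (n * k + i) = g i := by
    intro k i
    have h1 : x (n * k + i) = x i := by
      have h2 := hxj (n * k + i)
      rw [add_comm, Function.iterate_add_apply, hzk, hxj i] at h2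
      rw [add_comm]
      exact (OnePoint.coe_injective h2).symm
    rw [hg, hg, h1]
  have hprod : ∀ k, ∏ i ∈ Finset.range (n * k), g i = l ^ k := by
    intro k
    induction k with
    | zero => simp
    | succ k ih =>
      rw [Nat.mul_succ, Finset.prod_range_add, ih, pow_succ, hlg]
      congr 1
      exact Finset.prod_congr rfl fun i _ => hper k i
  have hder : ∀ k, HasDerivAt (fun w : ℂ => muC ((rat P Q)^[n * k] (w : OnePoint ℂ))) (l ^ k) z := by
    intro k
    have h1 := mu_deriv isOpen_ball hW (n * k) z (mem_ball_self hr0)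
    have h2 : (∏ i ∈ Finset.range (n * k), (Wr P Q).eval (muC ((rat P Q)^[i] (z : OnePoint ℂ))) /
        (Q.eval (muC ((rat P Q)^[i] (z : OnePoint ℂ)))) ^ 2) = l ^ k := by
      rw [← hprod k]
      refine Finset.prod_congr rfl fun i _ => ?_
      rw [hxj i, muC_coe, hg]
    rw [h2] at h1
    exact h1
  -- the inverse branches
  have hbr : ∀ k, ∃ G : ℂ → ℂ, DifferentiableOn ℂ G (ball z r0) ∧ G z = z ∧
      ∀ w ∈ ball z r0, (rat P Q)^[n * k] (G w : OnePoint ℂ) = (w : OnePoint ℂ) := by
    intro k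
    refine branch h (by omega) hr0 (n := n * k) ?_ (hzk k)
    intro y hy u hu
    have hau : Att (rat P Q) u := by
      rw [← att_iter hf u (n * k), hu]
      exact hatt y hy
    refine ⟨fun i hi hc => ?_, fun i _ => ?_⟩
    · apply hcon
      refine ⟨(rat P Q)^[i] u, hc, n * k - i, ?_⟩
      have h1 : (rat P Q)^[n * k - i] ((rat P Q)^[i] u) = (y : OnePoint ℂ) := by
        rw [← Function.iterate_add_apply, Nat.sub_add_cancel hi.le, hu]
      rw [h1]
      exact hba y hy
    · exact ⟨_, (coe_muC (hfin u hau i)).symm⟩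
  have hkey : ∀ k, ∃ G : ℂ → ℂ, G z = z ∧ DifferentiableOn ℂ G (ball z r0) ∧
      InjOn G (ball z r0) ∧ l ^ k * deriv G z = 1 ∧ ∀ w ∈ ball z r0,
        Att (rat P Q) (G w : OnePoint ℂ) := by
    intro k
    obtain ⟨G, hG1, hG2, hG3⟩ := hbr k
    refine ⟨G, hG2, hG1, ?_, ?_, ?_⟩
    · intro a ha b hb hab
      have h1 := hG3 a ha
      rw [hab, hG3 b hb] at h1
      exact (OnePoint.coe_injective h1).symm
    · have hGd : DifferentiableAt ℂ G z := hG1.differentiableAt (ball_mem_nhds z hr0)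
      have h1 : HasDerivAt (fun w : ℂ => muC ((rat P Q)^[n * k] (w : OnePoint ℂ))) (l ^ k) (G z) := by
        rw [hG2]
        exact hder k
      have h2 := h1.comp z hGd.hasDerivAt
      have h3 : (fun w => w) =ᶠ[𝓝 z] ((fun w : ℂ => muC ((rat P Q)^[n * k] (w : OnePoint ℂ))) ∘ G) := by
        filter_upwards [ball_mem_nhds z hr0] with w hw
        show w = muC ((rat P Q)^[n * k] (G w : OnePoint ℂ))
        rw [hG3 w hw, muC_coe]
      have h4 := h2.congr_of_eventuallyEq h3
      exact h4.unique (hasDerivAt_id z)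
    · intro w hw
      rw [← att_iter hf _ (n * k), hG3 w hw]
      exact hatt w hw
  have hl0 : l ≠ 0 := by
    intro h0
    obtain ⟨G, -, -, -, h1, -⟩ := hkey 1
    rw [h0, pow_one, zero_mul] at h1
    exact zero_ne_one h1
  obtain ⟨w2, hw2⟩ := skc_pole h hd hinf
  have hw2a : ¬ Att (rat P Q) (w2 : OnePoint ℂ) := by
    intro ha
    exact hfin _ ha 1 hw2
  have hlp : 0 < ‖l‖ := norm_pos_iff.2 hl0
  obtain ⟨k, hk⟩ := exists_pow_lt_of_lt_one (x := r0 / (16 * (‖w2 - z‖ + 1))) (by positivity) hl'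
  obtain ⟨G, hG0, hG1, hG2, hG3, hG4⟩ := hkey k
  have hdG : ‖deriv G z‖ = (‖l‖ ^ k)⁻¹ := by
    have h1 := congrArg norm hG3
    rw [norm_mul, norm_pow, norm_one] at h1
    exact (eq_inv_of_mul_eq_one_right h1)
  have hcov := Pool.Agent.H80.AJ.univ_cover hr0 hG1 hG2
  rw [hG0] at hcov
  have hmem : w2 ∈ ball z (r0 * ‖deriv G z‖ / 16) := by
    rw [mem_ball, dist_eq_norm, hdG]
    have hlk : 0 < ‖l‖ ^ k := pow_pos hlp k
    rw [lt_div_iff₀ (by positivity)] at hk
    rw [lt_div_iff₀ (by norm_num), ← div_eq_mul_inv, lt_div_iff₀ hlk]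
    nlinarith [norm_nonneg (w2 - z)]
  obtain ⟨w, hw, hGw⟩ := hcov hmem
  apply hw2a
  rw [← hGw]
  exact hG4 w hw

theorem sink_crit {P Q : Polynomial ℂ} (h : IsCoprime P Q) (hd : 2 ≤ max P.natDegree Q.natDegree)
    {z : OnePoint ℂ} {n : ℕ} (hz : IsSink (rat P Q) z n) :
    ∃ c, IsCrit (rat P Q) c ∧ ∃ m : ℕ,
      Tendsto (fun k : ℕ => (rat P Q)^[n * k] ((rat P Q)^[m] c)) atTop (𝓝 z) := by
  obtain ⟨y, hy⟩ := exists_not_att h hd
  induction y using OnePoint.rec with
  | infty =>
    induction z using OnePoint.rec with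
    | infty => exact absurd (att_sink hz) hy
    | coe z => exact skc_core h hd hy hz
  | coe s =>
    obtain ⟨φ, -, hφs, -, hφ⟩ := exists_mob s
    obtain ⟨h1, h2, h3⟩ := hφ _ P Q h rfl (by omega)
    have hinf : ¬ Att (rat (cj1 s (max P.natDegree Q.natDegree) P Q)
        (cj2 s (max P.natDegree Q.natDegree) P Q)) OnePoint.infty := by
      rw [← hφs, att_conj φ h3]
      exact hy
    have hz' := (isSink_conj φ h3 z n).2 hz
    have hcore : ∃ c, IsCrit (rat (cj1 s (max P.natDegree Q.natDegree) P Q)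
        (cj2 s (max P.natDegree Q.natDegree) P Q)) c ∧ ∃ m : ℕ,
        Tendsto (fun k : ℕ => (rat (cj1 s (max P.natDegree Q.natDegree) P Q)
          (cj2 s (max P.natDegree Q.natDegree) P Q))^[n * k]
            ((rat (cj1 s (max P.natDegree Q.natDegree) P Q)
              (cj2 s (max P.natDegree Q.natDegree) P Q))^[m] c)) atTop (𝓝 (φ z)) := by
      generalize φ z = z' at hz'
      induction z' using OnePoint.rec with
      | infty => exact absurd (att_sink hz') hinf
      | coe z' => exact skc_core h1 (by rw [h2]; exact hd) hinf hz'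
    obtain ⟨c', hc', m, hm⟩ := hcore
    obtain ⟨c, rfl⟩ := φ.surjective c'
    refine ⟨c, (isCrit_conj φ h3 c).1 hc', m, ?_⟩
    have h4 : ∀ k : ℕ, (rat (cj1 s (max P.natDegree Q.natDegree) P Q)
        (cj2 s (max P.natDegree Q.natDegree) P Q))^[n * k]
          ((rat (cj1 s (max P.natDegree Q.natDegree) P Q)
            (cj2 s (max P.natDegree Q.natDegree) P Q))^[m] (φ c)) =
        φ ((rat P Q)^[n * k] ((rat P Q)^[m] c)) := by
      intro k
      rw [iter_conj φ h3, iter_conj φ h3]
    simp only [h4] at hm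
    have h5 := (φ.symm.continuous.tendsto (φ z)).comp hm
    simp only [Function.comp_def, Homeomorph.symm_apply_apply] at h5
    exact h5

end Pool.Agent.H44.ND
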