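import Pool.Agent.H79.ES.EBO
import Pool.Agent.H44.RG.GTD

/-!
# Module UPN: the maps near which the number of attracted critical points increases are nowhere dense

PROOFS. `up_nwd`: let `X` be the set. Suppose `interior (closure X)` is not empty, call it `V`. By induction on `n`: there is a nonempty open `V' ⊆ V` with `n ≤ NA v` for all `v ∈ V'` of the set `{coprime, degree d}`, and `V'` contains such a `v`. `n = 0`: `V` (it meets `X`). Step: `V' ⊆ closure X` is open and nonempty, so there is `v ∈ V' ∩ X`; `Up v` gives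
`w ∈ V'` coprime of degree `d` with `NA w ≥ NA v + 1 ≥ n + 1`; by `na_low` and `cop_near` there is a neighbourhood of `w` in `V'` with `NA ≥ n + 1`. With `n = 2 d + 1`: contradiction with `na_le`. (Compare the proof of `nwd` in H79/ES/EN.)
`up_chart`: for `ε > 0` take `δ` such that `w ∈ ball (L v) δ` implies `G w ∈ ball v ε` and `G w` coprime of degree `d` (`cop_near`, continuity of `G` at `L v`, `G (L v) = v`). `Up (L v)` gives `w`; `NA (G w) = NA (L (G w)) = NA w` and `NA v = NA (L v)` by `na_conj` (H79/ES/EBO).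
-/

set_option autoImplicit false

open Filter Topology Polynomial Metric Set

namespace Pool.Agent.H44.ND

open Pool.Agent.H44.Fatou Pool.Agent.H32.BT Pool.Agent.H79.Eul Pool.Agent.H79.Par
open Pool.Agent.H35.EX Pool.Agent.H44.RR Pool.Agent.H79.ES

variable {d : ℕ}

/-- near `v` there are maps with more attracted critical points -/
def Up (v : E d) : Prop :=
  ∀ ε : ℝ, 0 < ε → ∃ w ∈ ball v ε, IsCoprime (pol w.1) (pol w.2) ∧
    max (pol w.1).natDegree (pol w.2).natDegree = d ∧ NA v + 1 ≤ NA w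

theorem up_nwd (hd : 2 ≤ d) : IsNowhereDense {v : E d | IsCoprime (pol v.1) (pol v.2) ∧
    max (pol v.1).natDegree (pol v.2).natDegree = d ∧ Up v} := by
  obtain ⟨S, hS⟩ : ∃ S : Set (E d), S = {v : E d | IsCoprime (pol v.1) (pol v.2) ∧
    max (pol v.1).natDegree (pol v.2).natDegree = d ∧ Up v} := ⟨_, rfl⟩
  rw [← hS]
  unfold IsNowhereDense
  by_contra hne
  have hne' : (interior (closure S)).Nonempty := Set.nonempty_iff_ne_empty.2 hne
  obtain ⟨U, hU⟩ : ∃ U, U = interior (closure S) := ⟨_, rfl⟩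
  rw [← hU] at hne'
  have hUo : IsOpen U := by rw [hU]; exact isOpen_interior
  have hUS : U ⊆ closure S := by rw [hU]; exact interior_subset
  have hmeet : ∀ V : Set (E d), IsOpen V → (V ∩ U).Nonempty → (V ∩ U ∩ S).Nonempty := by
    rintro V hV ⟨v, hv⟩
    exact mem_closure_iff.1 (hUS hv.2) _ (hV.inter hUo) hv
  have key : ∀ n : ℕ, ∃ v ∈ U, (IsCoprime (pol v.1) (pol v.2) ∧
      max (pol v.1).natDegree (pol v.2).natDegree = d) ∧ n ≤ NA v := by
    intro n
    induction n with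
    | zero =>
      obtain ⟨v, hv⟩ := hne'
      obtain ⟨v1, hv1, hv2⟩ := hmeet Set.univ isOpen_univ ⟨v, Set.mem_univ _, hv⟩
      rw [hS] at hv2
      exact ⟨v1, hv1.2, ⟨hv2.1, hv2.2.1⟩, Nat.zero_le _⟩
    | succ n ih =>
      obtain ⟨v0, hv0, ⟨hcop, hdeg⟩, hn⟩ := ih
      obtain ⟨V, hV, hVo, hvV⟩ := _root_.eventually_nhds_iff.1 (na_low hd hcop hdeg)
      obtain ⟨v1, ⟨hv1, hv1U⟩, hv1S⟩ := hmeet V hVo ⟨v0, hvV, hv0⟩
      have h1 := hV v1 hv1
      rw [hS] at hv1S
      obtain ⟨hc1, hd1, hup⟩ := hv1S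
      obtain ⟨ε, hε, hεU⟩ := Metric.isOpen_iff.1 hUo v1 hv1U
      obtain ⟨v2, h2, h3, h4, h5⟩ := hup ε hε
      exact ⟨v2, hεU h2, ⟨h3, h4⟩, by omega⟩
  obtain ⟨v, -, ⟨h1, h2⟩, h3⟩ := key (2 * d + 1)
  have h4 := na_le hd h1 h2
  omega

theorem up_summ (hd : 2 ≤ d) {v : E d} (hcop : IsCoprime (pol v.1) (pol v.2))
    (hdeg : max (pol v.1).natDegree (pol v.2).natDegree = d) {c : OnePoint ℂ}
    (hc : IsCrit (Rf v) c) (hs : Pool.Agent.H44.RG.Summ (Rf v) (Rf v c)) : Up v :=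
  fun _ hε => more hd hcop hdeg hc hs hε

theorem up_chart (hd : 2 ≤ d) {L G : E d → E d} {φ : OnePoint ℂ ≃ₜ OnePoint ℂ} (hG : Continuous G)
    (hGL : ∀ v, G (L v) = v) (hLG : ∀ v, L (G v) = v)
    (hc : ∀ v : E d, IsCoprime (pol v.1) (pol v.2) →
      max (pol v.1).natDegree (pol v.2).natDegree = d → ∀ x, Rf (L v) (φ x) = φ (Rf v x))
    {v : E d} (hcop : IsCoprime (pol v.1) (pol v.2))
    (hdeg : max (pol v.1).natDegree (pol v.2).natDegree = d) (h : Up (L v)) : Up v := by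
  intro ε hε
  have h1 : ∀ᶠ w in 𝓝 (L v), IsCoprime (pol (G w).1) (pol (G w).2) ∧
      max (pol (G w).1).natDegree (pol (G w).2).natDegree = d := by
    have h2 : Tendsto G (𝓝 (L v)) (𝓝 v) := by
      have h3 := hG.tendsto (L v)
      rwa [hGL] at h3
    exact h2.eventually (cop_near hcop hdeg (by omega))
  have h2 : ∀ᶠ w in 𝓝 (L v), G w ∈ ball v ε := by
    have h2 : Tendsto G (𝓝 (L v)) (𝓝 v) := by
      have h3 := hG.tendsto (L v)
      rwa [hGL] at h3
    exact h2.eventually (ball_mem_nhds v hε)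
  obtain ⟨δ, hδ, hball⟩ := Metric.eventually_nhds_iff_ball.1 (h1.and h2)
  obtain ⟨w, hw, hwc, hwd, hNA⟩ := h δ hδ
  obtain ⟨⟨h3, h4⟩, h5⟩ := hball w hw
  refine ⟨G w, h5, h3, h4, ?_⟩
  have e1 : NA (L v) = NA v := na_conj φ (fun x => (hc v hcop hdeg x).symm)
  have e2 : NA (L (G w)) = NA (G w) := na_conj φ (fun x => (hc (G w) h3 h4 x).symm)
  rw [hLG] at e2
  omega

end Pool.Agent.H44.ND
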