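import Mathlib

/-!
# Module PRH: products over the zeros of a family of holomorphic functions; Hurwitz

`ZS g z0 ε t`: the zeros of `g (t, .)` in `ball z0 ε`. `PR g M z0 ε t`: the product of `M (t, z)` over these zeros.

PROOFS. `zs_fin`: if `ZS g z0 ε t` is infinite it accumulates at a point `z` of the closed ball (compact), `g (t, z) = 0`, so `z` is not on the sphere; `g (t, .)` is analytic at `z` and `deriv (g (t, .)) z = fderiv ℂ g (t, z) (0, 1) ≠ 0`, so `z` is an isolated zero: contradiction.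
`pr_hol`: let `t1 ∈ D`, `ZS t1 = {z 1, .., z k}` (finite, distinct). Implicit function theorem at `(t1, z i)` (as H47/NN/LOC or H44/NP/IFT, for functions on `ℂ × ℂ`: `ContDiffAt.implicitFunction`): `ρ > 0` and `ζ i` analytic on `ball t1 ρ`, `ζ i t1 = z i`, `g (t, ζ i t) = 0`, and for `t ∈ ball t1 ρ`, `z ∈ ball (z i) ρ`: `g (t, z) = 0` iff `z = ζ i t`;
`ρ` so small that the balls `ball (z i) ρ` are disjoint and contained in `ball z0 ε`, and (smaller `ρ' ≤ ρ` for `t`) `ζ i t ∈ ball (z i) ρ` for `t ∈ ball t1 ρ'`. On the compact set `K = closedBall z0 ε \ ⋃ ball (z i) ρ` the function `g (t1, .)` has no zero (`hs` on the sphere), so for `t` near `t1` there is no zero of `g (t, .)` in `K`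
(`IsCompact.eventually_forall_of_forall_eventually`, continuity of `g`). So for `t` near `t1`: `ZS t = {ζ 1 t, .., ζ k t}`, distinct, and `PR t = ∏ M (t, ζ i t)` is differentiable at `t1` (`DifferentiableAt` depends on the germ). (`finprod_mem_eq_finite_toFinset_prod` or `finprod_mem_image`.)
`hurwitz`: the minimum `2 η > 0` of `‖g (t0, .)‖` on the sphere (`ε > 0`, compact); for `t` near `t0`: `‖g (t, z)‖ > η` on the sphere (compactness) and `‖g (t, z0)‖ < η`, and `g (t, .)` is differentiable on the closed ball (`hg` near `t0`: `AnalyticAt` is an open condition, compactness). If `g (t, .)` had no zero in `ball z0 ε`, then `1 / g (t, .)` would be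
differentiable on the ball and continuous on the closed ball, with norm `< 1 / η` on the sphere and `> 1 / η` at `z0`: contradiction to the maximum principle (`Complex.norm_le_of_forall_mem_frontier_norm_le`).
`zs_near`: given `δ > 0`: for `t` near `t0` all zeros in `ball z0 ε` are in `ball z0 δ`: if `g (t0, .)` has the only zero `z0` in the closed ball; compactness of `closedBall z0 ε \ ball z0 δ`.
-/

set_option autoImplicit false

open Filter Topology Metric Set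

namespace Pool.Agent.H44.ND

/-- the zeros of `g (t, .)` in the ball -/
def ZS (g : ℂ × ℂ → ℂ) (z0 : ℂ) (ε : ℝ) (t : ℂ) : Set ℂ := {z | z ∈ ball z0 ε ∧ g (t, z) = 0}

/-- the product over the zeros -/
noncomputable def PR (g M : ℂ × ℂ → ℂ) (z0 : ℂ) (ε : ℝ) (t : ℂ) : ℂ := ∏ᶠ z ∈ ZS g z0 ε t, M (t, z)

variable {g M : ℂ × ℂ → ℂ} {z0 : ℂ} {ε : ℝ}

private theorem slice {t z : ℂ} (hg : AnalyticAt ℂ g (t, z)) :
    HasDerivAt (fun w => g (t, w)) (fderiv ℂ g (t, z) (0, 1)) z := by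
  have d1 : HasFDerivAt g (fderiv ℂ g (t, z)) ((fun w : ℂ => ((t, w) : ℂ × ℂ)) z) :=
    hg.differentiableAt.hasFDerivAt
  have d2 : HasDerivAt (fun w : ℂ => ((t, w) : ℂ × ℂ)) ((0, 1) : ℂ × ℂ) z :=
    (hasDerivAt_const z t).prodMk (hasDerivAt_id z)
  exact d1.comp_hasDerivAt z d2

private theorem inv_of (L : ℂ →L[ℂ] ℂ) (h : L 1 ≠ 0) : L.IsInvertible := by
  refine ⟨ContinuousLinearEquiv.unitsEquivAut ℂ (Units.mk0 (L 1) h), ?_⟩
  ext
  simp

private theorem ift1 {t1 z1 : ℂ} (hg : AnalyticAt ℂ g (t1, z1)) (h0 : g (t1, z1) = 0)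
    (h1 : fderiv ℂ g (t1, z1) (0, 1) ≠ 0) :
    ∃ ζ : ℂ → ℂ, ζ t1 = z1 ∧ AnalyticAt ℂ ζ t1 ∧ (∀ᶠ t in 𝓝 t1, g (t, ζ t) = 0) ∧
      ∀ᶠ v in 𝓝 ((t1, z1) : ℂ × ℂ), g v = 0 → v.2 = ζ v.1 := by
  have cdf : ContDiffAt ℂ ⊤ g (t1, z1) := hg.contDiffAt
  have hL : (fderiv ℂ g (t1, z1) ∘L .inr ℂ ℂ ℂ) 1 ≠ 0 := by
    show (fderiv ℂ g (t1, z1)) ((ContinuousLinearMap.inr ℂ ℂ ℂ) 1) ≠ 0
    rw [ContinuousLinearMap.inr_apply]
    exact h1
  have hinv : (fderiv ℂ g (t1, z1) ∘L .inr ℂ ℂ ℂ).IsInvertible := inv_of _ hL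
  have hn : (⊤ : WithTop ℕ∞) ≠ 0 := by simp
  refine ⟨cdf.implicitFunction hn hinv, cdf.implicitFunction_apply_self hn hinv,
    (cdf.contDiffAt_implicitFunction hn hinv).analyticAt, ?_, ?_⟩
  · have z1' := cdf.eventually_apply_implicitFunction hn hinv
    rw [h0] at z1'
    exact z1'
  · have z2 := cdf.eventually_apply_eq_iff_implicitFunction hn hinv
    rw [h0] at z2
    filter_upwards [z2] with v hv hgv
    exact (hv.1 hgv).symm

theorem zs_fin {t : ℂ} (hg : ∀ z ∈ closedBall z0 ε, AnalyticAt ℂ g (t, z))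
    (hs : ∀ z ∈ sphere z0 ε, g (t, z) ≠ 0)
    (hz : ∀ z ∈ ball z0 ε, g (t, z) = 0 → fderiv ℂ g (t, z) (0, 1) ≠ 0) :
    (ZS g z0 ε t).Finite := by
  by_contra hinf
  have hinf' : (ZS g z0 ε t).Infinite := hinf
  obtain ⟨z, hzK, hacc⟩ := hinf'.exists_accPt_of_subset_isCompact (isCompact_closedBall z0 ε)
    (fun w hw => ball_subset_closedBall hw.1)
  have hfr := accPt_iff_frequently.1 hacc
  have hgz : g (t, z) = 0 := by
    by_contra hne
    have hc : ContinuousAt (fun w => g (t, w)) z := (slice (hg z hzK)).continuousAt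
    have h1 : ∀ᶠ w in 𝓝 z, g (t, w) ≠ 0 := hc.eventually_ne hne
    exact hfr (h1.mono fun w hw h => hw h.2.2)
  have hzb : z ∈ ball z0 ε := by
    rcases (mem_closedBall.1 hzK).lt_or_eq with h | h
    · exact h
    · exact absurd hgz (hs z h)
  have hd := (slice (hg z hzK)).eventually_ne (hz z hzb hgz) (c := 0)
  rw [eventually_nhdsWithin_iff] at hd
  exact hfr (hd.mono fun w hw h => hw h.1 h.2.2)

theorem pr_hol {D : Set ℂ} (hD : IsOpen D) (hg : ∀ t ∈ D, ∀ z ∈ closedBall z0 ε, AnalyticAt ℂ g (t, z))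
    (hM : ∀ t ∈ D, ∀ z ∈ closedBall z0 ε, AnalyticAt ℂ M (t, z))
    (hs : ∀ t ∈ D, ∀ z ∈ sphere z0 ε, g (t, z) ≠ 0)
    (hz : ∀ t ∈ D, ∀ z ∈ ball z0 ε, g (t, z) = 0 → fderiv ℂ g (t, z) (0, 1) ≠ 0) :
    DifferentiableOn ℂ (PR g M z0 ε) D := by
  intro t1 ht1
  refine DifferentiableAt.differentiableWithinAt ?_
  have hfin := zs_fin (hg t1 ht1) (hs t1 ht1) (hz t1 ht1)
  have hex : ∀ z : ℂ, z ∈ ZS g z0 ε t1 → ∃ ζ : ℂ → ℂ, ζ t1 = z ∧ AnalyticAt ℂ ζ t1 ∧
      (∀ᶠ t in 𝓝 t1, g (t, ζ t) = 0) ∧ ∀ᶠ v in 𝓝 ((t1, z) : ℂ × ℂ), g v = 0 → v.2 = ζ v.1 := by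
    intro z hzS
    exact ift1 (hg t1 ht1 z (ball_subset_closedBall hzS.1)) hzS.2 (hz t1 ht1 z hzS.1 hzS.2)
  choose! ζ hζ1 hζ2 hζ3 hζ4 using hex
  have hmem : ∀ z, z ∈ hfin.toFinset → z ∈ ZS g z0 ε t1 := fun z h => hfin.mem_toFinset.1 h
  -- (a)
  have ha : ∀ᶠ t in 𝓝 t1, ∀ z ∈ hfin.toFinset, ζ z t ∈ ZS g z0 ε t := by
    rw [Filter.eventually_all_finset]
    intro z hzF
    have hzS := hmem z hzF
    have h1 : ∀ᶠ t in 𝓝 t1, ζ z t ∈ ball z0 ε := by
      apply (hζ2 z hzS).continuousAt.eventually_mem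
      rw [hζ1 z hzS]
      exact isOpen_ball.mem_nhds hzS.1
    filter_upwards [h1, hζ3 z hzS] with t h2 h3
    exact ⟨h2, h3⟩
  -- (b)
  have hb : ∀ᶠ t in 𝓝 t1, ∀ z ∈ hfin.toFinset, ∀ w ∈ hfin.toFinset, ζ z t = ζ w t → z = w := by
    rw [Filter.eventually_all_finset]
    intro z hzF
    rw [Filter.eventually_all_finset]
    intro w hwF
    by_cases hzw : z = w
    · exact Eventually.of_forall fun t _ => hzw
    · have h1 : ∀ᶠ t in 𝓝 t1, ζ z t - ζ w t ≠ 0 := by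
        apply ((hζ2 z (hmem z hzF)).continuousAt.sub (hζ2 w (hmem w hwF)).continuousAt).eventually_ne
        show ζ z t1 - ζ w t1 ≠ 0
        rw [hζ1 z (hmem z hzF), hζ1 w (hmem w hwF)]
        exact sub_ne_zero.2 hzw
      filter_upwards [h1] with t h2 h3
      exact absurd (sub_eq_zero.2 h3) h2
  -- (c)
  have hc : ∀ᶠ t in 𝓝 t1, ∀ w ∈ closedBall z0 ε, g (t, w) = 0 → ∃ z ∈ hfin.toFinset, ζ z t = w := by
    refine (isCompact_closedBall z0 ε).eventually_forall_of_forall_eventually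
      (P := fun t w => g (t, w) = 0 → ∃ z ∈ hfin.toFinset, ζ z t = w) ?_
    intro w hw
    by_cases hgw : g (t1, w) = 0
    · have hwS : w ∈ ZS g z0 ε t1 := by
        refine ⟨?_, hgw⟩
        rcases (mem_closedBall.1 hw).lt_or_eq with h | h
        · exact h
        · exact absurd hgw (hs t1 ht1 w h)
      filter_upwards [hζ4 w hwS] with v hv hgv
      exact ⟨w, hfin.mem_toFinset.2 hwS, (hv hgv).symm⟩
    · have h1 : ∀ᶠ v in 𝓝 ((t1, w) : ℂ × ℂ), g v ≠ 0 := (hg t1 ht1 w hw).continuousAt.eventually_ne hgw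
      filter_upwards [h1] with v hv hgv
      exact absurd hgv hv
  have heq : PR g M z0 ε =ᶠ[𝓝 t1] fun t => ∏ z ∈ hfin.toFinset, M (t, ζ z t) := by
    filter_upwards [ha, hb, hc] with t h1 h2 h3
    have e1 : ZS g z0 ε t = (fun z => ζ z t) '' (hfin.toFinset : Set ℂ) := by
      ext w
      constructor
      · intro hw
        obtain ⟨z, hzF, hzw⟩ := h3 w (ball_subset_closedBall hw.1) hw.2
        exact ⟨z, hzF, hzw⟩
      · rintro ⟨z, hzF, rfl⟩
        exact h1 z hzF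
    unfold PR
    rw [e1, finprod_mem_image (fun z hzF w hwF h => h2 z hzF w hwF h), finprod_mem_coe_finset]
  refine DifferentiableAt.congr_of_eventuallyEq ?_ heq
  refine DifferentiableAt.fun_finsetProd fun z hzF => ?_
  have hzS := hmem z hzF
  have k2 : DifferentiableAt ℂ M (t1, ζ z t1) := by
    rw [hζ1 z hzS]
    exact (hM t1 ht1 z (ball_subset_closedBall hzS.1)).differentiableAt
  have k3 : DifferentiableAt ℂ (fun s => ((s, ζ z s) : ℂ × ℂ)) t1 :=
    differentiableAt_id.prodMk (hζ2 z hzS).differentiableAt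
  exact DifferentiableAt.comp (g := M) t1 k2 k3

theorem hurwitz {t0 : ℂ} (hε : 0 < ε) (hg : ∀ z ∈ closedBall z0 ε, AnalyticAt ℂ g (t0, z))
    (h0 : g (t0, z0) = 0) (hs : ∀ z ∈ sphere z0 ε, g (t0, z) ≠ 0) :
    ∀ᶠ t in 𝓝 t0, (ZS g z0 ε t).Nonempty := by
  have hcs : ∀ z ∈ closedBall z0 ε, ContinuousAt (fun w => g (t0, w)) z := fun z hz =>
    (slice (hg z hz)).continuousAt
  have hne : (sphere z0 ε).Nonempty := NormedSpace.sphere_nonempty.2 hε.le
  obtain ⟨w0, hw0, hmin⟩ := (isCompact_sphere z0 ε).exists_isMinOn hne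
    (f := fun w => ‖g (t0, w)‖) (fun z hz => ((hcs z (sphere_subset_closedBall hz)).norm).continuousWithinAt)
  have hm : 0 < ‖g (t0, w0)‖ := norm_pos_iff.2 (hs w0 hw0)
  obtain ⟨η, hη⟩ : ∃ η : ℝ, η = ‖g (t0, w0)‖ / 2 := ⟨_, rfl⟩
  have hη0 : 0 < η := by rw [hη]; positivity
  have h1 : ∀ᶠ t in 𝓝 t0, ∀ z ∈ sphere z0 ε, η < ‖g (t, z)‖ := by
    refine (isCompact_sphere z0 ε).eventually_forall_of_forall_eventually
      (P := fun t z => η < ‖g (t, z)‖) ?_
    intro z hz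
    have hc : ContinuousAt (fun v => ‖g v‖) ((t0, z) : ℂ × ℂ) :=
      (hg z (sphere_subset_closedBall hz)).continuousAt.norm
    have h2 : η < ‖g (t0, z)‖ := by
      have := hmin hz
      simp only [mem_setOf_eq] at this
      rw [hη]
      linarith
    exact hc.eventually_const_lt h2
  have h2 : ∀ᶠ t in 𝓝 t0, ‖g (t, z0)‖ < η := by
    have hc : ContinuousAt (fun t : ℂ => ‖g (t, z0)‖) t0 := by
      have h3 : ContinuousAt g ((fun t : ℂ => ((t, z0) : ℂ × ℂ)) t0) :=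
        (hg z0 (mem_closedBall_self hε.le)).continuousAt
      exact (ContinuousAt.comp (f := fun t : ℂ => ((t, z0) : ℂ × ℂ)) h3
        (continuousAt_id.prodMk continuousAt_const)).norm
    refine hc.eventually_lt_const ?_
    show ‖g (t0, z0)‖ < η
    rw [h0, norm_zero]
    exact hη0
  have h3 : ∀ᶠ t in 𝓝 t0, ∀ z ∈ closedBall z0 ε, AnalyticAt ℂ g (t, z) := by
    refine (isCompact_closedBall z0 ε).eventually_forall_of_forall_eventually
      (P := fun t z => AnalyticAt ℂ g (t, z)) ?_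
    intro z hz
    exact (hg z hz).eventually_analyticAt
  filter_upwards [h1, h2, h3] with t g1 g2 g3
  by_contra hemp
  rw [Set.not_nonempty_iff_eq_empty] at hemp
  have hnz : ∀ z ∈ closedBall z0 ε, g (t, z) ≠ 0 := by
    intro z hz hgz
    rcases (mem_closedBall.1 hz).lt_or_eq with h | h
    · have : z ∈ ZS g z0 ε t := ⟨h, hgz⟩
      rw [hemp] at this
      exact this
    · have := g1 z h
      rw [hgz, norm_zero] at this
      linarith
  have hdc : DiffContOnCl ℂ (fun z => (g (t, z))⁻¹) (ball z0 ε) := by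
    apply DifferentiableOn.diffContOnCl
    rw [closure_ball z0 hε.ne']
    intro z hz
    exact ((slice (g3 z hz)).differentiableAt.inv (hnz z hz)).differentiableWithinAt
  have hb := Complex.norm_le_of_forall_mem_frontier_norm_le isBounded_ball hdc (C := η⁻¹)
    (fun z hz => by
      rw [frontier_ball z0 hε.ne'] at hz
      rw [norm_inv]
      exact inv_anti₀ hη0 (g1 z hz).le) (subset_closure (mem_ball_self hε))
  rw [norm_inv] at hb
  have h4 : 0 < ‖g (t, z0)‖ := norm_pos_iff.2 (hnz z0 (mem_closedBall_self hε.le))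
  have h5 : η⁻¹ < ‖g (t, z0)‖⁻¹ := inv_strictAnti₀ h4 g2
  linarith

theorem zs_near {t0 : ℂ} (hg : ∀ z ∈ closedBall z0 ε, AnalyticAt ℂ g (t0, z))
    (hs : ∀ z ∈ closedBall z0 ε, z ≠ z0 → g (t0, z) ≠ 0) {δ : ℝ} (hδ : 0 < δ) :
    ∀ᶠ t in 𝓝 t0, ZS g z0 ε t ⊆ ball z0 δ := by
  have h1 : ∀ᶠ t in 𝓝 t0, ∀ z ∈ closedBall z0 ε, g (t, z) = 0 → z ∈ ball z0 δ := by
    refine (isCompact_closedBall z0 ε).eventually_forall_of_forall_eventually
      (P := fun t z => g (t, z) = 0 → z ∈ ball z0 δ) ?_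
    intro z hz
    by_cases hzz : z = z0
    · have h2 : ∀ᶠ v in 𝓝 ((t0, z) : ℂ × ℂ), v.2 ∈ ball z0 δ := by
        apply continuousAt_snd.eventually_mem
        rw [hzz]
        exact ball_mem_nhds _ hδ
      filter_upwards [h2] with v hv _
      exact hv
    · have h2 : ∀ᶠ v in 𝓝 ((t0, z) : ℂ × ℂ), g v ≠ 0 := (hg z hz).continuousAt.eventually_ne (hs z hz hzz)
      filter_upwards [h2] with v hv hgv
      exact absurd hgv hv
  filter_upwards [h1] with t ht z hz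
  exact ht z (ball_subset_closedBall hz.1) hz.2

end Pool.Agent.H44.ND
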