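import Pool.Agent.H44.ND.PRH

/-!
# Module PRX: if all the values are outside the disc then they are on the circle

PROOF of `pr_max`. `D = ball t0 r \ {t0}` (open). By `hurwitz`, `zs_near` (with `δ` to be chosen) and the hypotheses, after making `r` smaller: `ZS t` is nonempty and finite with at most `N` elements for `t ∈ D` (`zs_fin`, `hN`), the hypotheses of `pr_hol` hold on `D`. `φ = PR g M z0 ε` is differentiable on `D`, `1 ≤ ‖φ‖` there (a product of numbers of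
norm `≥ 1`), and `‖φ t‖ → 1` as `t → t0`: given `η`, `M` is continuous at `(t0, z0)` with `‖M (t0, z0)‖ = 1`, so `‖M (t, z)‖ ≤ 1 + η` for `t` near `t0`, `z ∈ ball z0 δ`; with `zs_near`: `‖φ t‖ ≤ (1 + η) ^ N`. So `h = 1 / φ` is differentiable on `D` and bounded by 1: it extends to a differentiable function on `ball t0 r`
(`Complex.differentiableOn_update_limUnder_of_bddAbove`, or `Complex.analyticAt_of_differentiable_on_punctured_nhds_of_continuousAt`), `‖h t0‖ = 1` by continuity: the norm has a maximum at `t0`, so `‖h‖ = 1` on the ball (`Complex.norm_eqOn_of_isPreconnected_of_isMaxOn`): `‖φ t‖ = 1` for `t ∈ D`, and every factor has norm 1 (product of numbers `≥ 1`).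
Note that everything happens for `t` near `t0`: choose the final radius first (eventually statements), then take `D`.
-/

set_option autoImplicit false

open Filter Topology Metric Set

namespace Pool.Agent.H44.ND

private theorem pr_eq {g M : ℂ × ℂ → ℂ} {z0 : ℂ} {ε : ℝ} {t : ℂ} (hf : (ZS g z0 ε t).Finite) :
    ‖PR g M z0 ε t‖ = ∏ z ∈ hf.toFinset, ‖M (t, z)‖ := by
  unfold PR
  rw [finprod_mem_eq_finite_toFinset_prod _ hf, norm_prod]

private theorem one_le_pr {g M : ℂ × ℂ → ℂ} {z0 : ℂ} {ε : ℝ} {t : ℂ} (hf : (ZS g z0 ε t).Finite)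
    (h1 : ∀ z ∈ ZS g z0 ε t, 1 ≤ ‖M (t, z)‖) (s : Finset ℂ) (hs : s ⊆ hf.toFinset) :
    1 ≤ ∏ z ∈ s, ‖M (t, z)‖ := by
  have h2 : ∏ _z ∈ s, (1 : ℝ) ≤ ∏ z ∈ s, ‖M (t, z)‖ :=
    Finset.prod_le_prod (fun _ _ => zero_le_one) (fun z hz => h1 z (hf.mem_toFinset.1 (hs hz)))
  simpa using h2

theorem pr_max {g M : ℂ × ℂ → ℂ} {t0 z0 : ℂ} {ε : ℝ} (hε : 0 < ε)
    (hg : ∀ z ∈ closedBall z0 ε, AnalyticAt ℂ g (t0, z))
    (hM : ∀ z ∈ closedBall z0 ε, AnalyticAt ℂ M (t0, z)) (h0 : g (t0, z0) = 0)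
    (hs : ∀ z ∈ closedBall z0 ε, z ≠ z0 → g (t0, z) ≠ 0) (hM0 : ‖M (t0, z0)‖ = 1) {N : ℕ}
    (hN : ∀ᶠ t in 𝓝 t0, (ZS g z0 ε t).ncard ≤ N)
    (hz : ∀ᶠ t in 𝓝[≠] t0, ∀ z ∈ ball z0 ε, g (t, z) = 0 → fderiv ℂ g (t, z) (0, 1) ≠ 0)
    (h1 : ∀ᶠ t in 𝓝[≠] t0, ∀ z ∈ ZS g z0 ε t, 1 ≤ ‖M (t, z)‖) :
    ∀ᶠ t in 𝓝[≠] t0, ∃ z ∈ ZS g z0 ε t, ‖M (t, z)‖ = 1 := by
  have hsph : ∀ z ∈ sphere z0 ε, g (t0, z) ≠ 0 := by
    intro z hz'
    refine hs z (sphere_subset_closedBall hz') ?_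
    rintro rfl
    rw [mem_sphere, dist_self] at hz'
    exact hε.ne hz'
  have e1 : ∀ᶠ t in 𝓝 t0, ∀ z ∈ closedBall z0 ε, AnalyticAt ℂ g (t, z) := by
    refine (isCompact_closedBall z0 ε).eventually_forall_of_forall_eventually
      (P := fun t z => AnalyticAt ℂ g (t, z)) ?_
    intro z hz'
    exact (hg z hz').eventually_analyticAt
  have e2 : ∀ᶠ t in 𝓝 t0, ∀ z ∈ closedBall z0 ε, AnalyticAt ℂ M (t, z) := by
    refine (isCompact_closedBall z0 ε).eventually_forall_of_forall_eventually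
      (P := fun t z => AnalyticAt ℂ M (t, z)) ?_
    intro z hz'
    exact (hM z hz').eventually_analyticAt
  have e3 : ∀ᶠ t in 𝓝 t0, ∀ z ∈ sphere z0 ε, g (t, z) ≠ 0 := by
    refine (isCompact_sphere z0 ε).eventually_forall_of_forall_eventually
      (P := fun t z => g (t, z) ≠ 0) ?_
    intro z hz'
    exact (hg z (sphere_subset_closedBall hz')).continuousAt.eventually_ne (hsph z hz')
  have e4 := hurwitz hε hg h0 hsph
  rw [eventually_nhdsWithin_iff] at hz h1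
  obtain ⟨r, hr, hr'⟩ := Metric.eventually_nhds_iff_ball.1
    (e1.and (e2.and (e3.and (e4.and (hN.and (hz.and h1))))))
  obtain ⟨D, hD⟩ : ∃ D : Set ℂ, D = ball t0 r \ {t0} := ⟨_, rfl⟩
  have hDo : IsOpen D := by
    rw [hD]
    exact isOpen_ball.sdiff isClosed_singleton
  have hDm : ∀ t ∈ D, t ∈ ball t0 r ∧ t ≠ t0 := by
    intro t ht
    rw [hD] at ht
    exact ⟨ht.1, ht.2⟩
  have hfin : ∀ t ∈ D, (ZS g z0 ε t).Finite := by
    intro t ht
    obtain ⟨q1, q2⟩ := hDm t ht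
    obtain ⟨p1, p2, p3, p4, p5, p6, p7⟩ := hr' t q1
    exact zs_fin p1 p3 (p6 q2)
  have hdiff : DifferentiableOn ℂ (PR g M z0 ε) D := by
    apply pr_hol hDo
    · intro t ht
      exact (hr' t (hDm t ht).1).1
    · intro t ht
      exact (hr' t (hDm t ht).1).2.1
    · intro t ht
      exact (hr' t (hDm t ht).1).2.2.1
    · intro t ht
      exact (hr' t (hDm t ht).1).2.2.2.2.2.1 (hDm t ht).2
  have hge : ∀ t ∈ D, 1 ≤ ‖PR g M z0 ε t‖ := by
    intro t ht
    rw [pr_eq (hfin t ht)]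
    exact one_le_pr (hfin t ht) ((hr' t (hDm t ht).1).2.2.2.2.2.2 (hDm t ht).2) _ (Finset.Subset.refl _)
  have hne : ∀ t ∈ D, PR g M z0 ε t ≠ 0 := by
    intro t ht h
    have := hge t ht
    rw [h, norm_zero] at this
    linarith
  obtain ⟨h, hh⟩ : ∃ h : ℂ → ℂ, h = fun t => (PR g M z0 ε t)⁻¹ := ⟨_, rfl⟩
  have hhd : DifferentiableOn ℂ h (ball t0 r \ {t0}) := by
    rw [← hD, hh]
    exact hdiff.inv hne
  have hhle : ∀ t ∈ D, ‖h t‖ ≤ 1 := by
    intro t ht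
    rw [hh]
    simp only [norm_inv]
    exact inv_le_one_of_one_le₀ (hge t ht)
  have hbdd : BddAbove (norm ∘ h '' (ball t0 r \ {t0})) := by
    refine ⟨1, ?_⟩
    rintro _ ⟨t, ht, rfl⟩
    rw [← hD] at ht
    exact hhle t ht
  have hHd := Complex.differentiableOn_update_limUnder_of_bddAbove (ball_mem_nhds t0 hr) hhd hbdd
  obtain ⟨H, hH⟩ : ∃ H : ℂ → ℂ, H = Function.update h t0 (limUnder (𝓝[≠] t0) h) := ⟨_, rfl⟩
  rw [← hH] at hHd
  have hHh : ∀ t, t ≠ t0 → H t = h t := by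
    intro t ht
    rw [hH, Function.update_of_ne ht]
  have hHc : ContinuousAt H t0 := (hHd.differentiableAt (ball_mem_nhds t0 hr)).continuousAt
  have hHt : Tendsto (fun t => ‖H t‖) (𝓝[≠] t0) (𝓝 ‖H t0‖) :=
    (hHc.norm).tendsto.mono_left nhdsWithin_le_nhds
  have hDn : ∀ᶠ t in 𝓝[≠] t0, t ∈ D := by
    rw [hD, eventually_nhdsWithin_iff]
    filter_upwards [ball_mem_nhds t0 hr] with t ht ht0
    exact ⟨ht, ht0⟩
  -- the upper bound at t0
  have hle1 : ‖H t0‖ ≤ 1 := by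
    refine le_of_tendsto hHt ?_
    filter_upwards [hDn] with t ht
    rw [hHh t (hDm t ht).2]
    exact hhle t ht
  -- the lower bound at t0
  have hlow : ∀ η : ℝ, 0 < η → 1 ≤ (1 + η) ^ N * ‖H t0‖ := by
    intro η hη
    have hcM : ContinuousAt (fun v => ‖M v‖) ((t0, z0) : ℂ × ℂ) :=
      (hM z0 (mem_closedBall_self hε.le)).continuousAt.norm
    have hcM1 : ∀ᶠ v in 𝓝 ((t0, z0) : ℂ × ℂ), ‖M v‖ < 1 + η := by
      refine hcM.eventually_lt_const ?_
      show ‖M (t0, z0)‖ < 1 + η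
      rw [hM0]
      linarith
    obtain ⟨δ, hδ, hδ'⟩ := Metric.eventually_nhds_iff_ball.1 hcM1
    have hnear := zs_near hg hs hδ
    have hball : ∀ᶠ t in 𝓝 t0, t ∈ ball t0 δ := ball_mem_nhds t0 hδ
    refine ge_of_tendsto (hHt.const_mul ((1 + η) ^ N)) ?_
    filter_upwards [hDn, nhdsWithin_le_nhds hnear, nhdsWithin_le_nhds hball] with t ht ht1 ht2
    rw [hHh t (hDm t ht).2]
    have hpr : ‖PR g M z0 ε t‖ ≤ (1 + η) ^ N := by
      rw [pr_eq (hfin t ht)]
      have k1 : ∏ z ∈ (hfin t ht).toFinset, ‖M (t, z)‖ ≤ ∏ _z ∈ (hfin t ht).toFinset, (1 + η) := by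
        refine Finset.prod_le_prod (fun _ _ => norm_nonneg _) fun z hz' => ?_
        have hz2 := (hfin t ht).mem_toFinset.1 hz'
        refine (hδ' (t, z) ?_).le
        rw [Metric.mem_ball, Prod.dist_eq, max_lt_iff]
        exact ⟨ht2, ht1 hz2⟩
      refine k1.trans ?_
      rw [Finset.prod_const]
      refine pow_le_pow_right₀ (by linarith) ?_
      rw [← Set.ncard_eq_toFinset_card (ZS g z0 ε t) (hfin t ht)]
      exact (hr' t (hDm t ht).1).2.2.2.2.1
    have hpos : 0 < ‖PR g M z0 ε t‖ := by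
      have := hge t ht
      linarith
    rw [hh]
    simp only [norm_inv]
    rw [← div_eq_mul_inv, le_div_iff₀ hpos, one_mul]
    exact hpr
  have hge1 : 1 ≤ ‖H t0‖ := by
    have hc : Continuous (fun η : ℝ => (1 + η) ^ N * ‖H t0‖) := by fun_prop
    have ht : Tendsto (fun η : ℝ => (1 + η) ^ N * ‖H t0‖) (𝓝[>] 0) (𝓝 ‖H t0‖) := by
      have h2 := (hc.tendsto 0).mono_left (nhdsWithin_le_nhds (s := Ioi 0))
      simpa using h2
    refine ge_of_tendsto ht ?_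
    filter_upwards [self_mem_nhdsWithin] with η hη
    exact hlow η hη
  have hH1 : ‖H t0‖ = 1 := le_antisymm hle1 hge1
  have hmax : IsMaxOn (norm ∘ H) (ball t0 r) t0 := by
    intro t ht
    show ‖H t‖ ≤ ‖H t0‖
    by_cases htt : t = t0
    · rw [htt]
    · rw [hHh t htt, hH1]
      apply hhle
      rw [hD]
      exact ⟨ht, htt⟩
  have hconst := Complex.norm_eqOn_of_isPreconnected_of_isMaxOn (convex_ball t0 r).isPreconnected isOpen_ball
    hHd (mem_ball_self hr) hmax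
  filter_upwards [hDn] with t ht
  have h5 : ‖H t‖ = 1 := by
    have := hconst (hDm t ht).1
    simp only [Function.comp, Function.const] at this
    rw [this, hH1]
  rw [hHh t (hDm t ht).2, hh] at h5
  simp only [norm_inv] at h5
  have h6 : ‖PR g M z0 ε t‖ = 1 := by
    exact inv_eq_one.1 h5
  obtain ⟨z, hzS⟩ := (hr' t (hDm t ht).1).2.2.2.1
  refine ⟨z, hzS, ?_⟩
  have h7 := (hr' t (hDm t ht).1).2.2.2.2.2.2 (hDm t ht).2
  rw [pr_eq (hfin t ht)] at h6
  have hzF : z ∈ (hfin t ht).toFinset := (hfin t ht).mem_toFinset.2 hzS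
  rw [← Finset.mul_prod_erase _ _ hzF] at h6
  have h8 := one_le_pr (hfin t ht) h7 ((hfin t ht).toFinset.erase z) (Finset.erase_subset _ _)
  have h9 := h7 z hzS
  nlinarith

end Pool.Agent.H44.ND
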