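import Mathlib
import Pool.Agent.H44.ND.RND
import Pool.Agent.H47.NM.UNI
import Pool.Agent.H44.RG.GMN
import Pool.Agent.H79.MZ.HLD
import Pool.Agent.H79.MZ.HLC
import Pool.Agent.H32.RB.Main
import Pool.Agent.H9.GP.All

/-!
# Almost every rational map: recurrent critical points and critical values of Collet-Eckmann type

The work is in `H44/RC`, `H47/RJ`, `H76/SU`, `H47/NM` (recurrence, the theorems of Mane and Sullivan),
`H44/RG`, `H79/MZ`, `H9/GP` (critical values of Collet-Eckmann type), `H44/ND`, `H79/ES` (nowhere dense).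
-/

set_option autoImplicit false

namespace Pool.Agent.H44.ND.RecurrentCritical

open Polynomial Filter Topology MeasureTheory

/-- `f` is the rational map `P/Q` on the sphere. -/
def IsMap (f : OnePoint ℂ → OnePoint ℂ) (P Q : Polynomial ℂ) : Prop :=
  Continuous f ∧
    ∀ z : ℂ, Q.eval z ≠ 0 → f (OnePoint.some z) = OnePoint.some (P.eval z / Q.eval z)

/-- `c` is a critical point of `f`. -/
def IsCritical (f : OnePoint ℂ → OnePoint ℂ) (c : OnePoint ℂ) : Prop :=
  ¬ ∃ U ∈ nhds c, Set.InjOn f U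

/-- `c` is attracted by an attracting cycle of `f` (words of the frozen statement `S05373`). -/
def IsAttracted (f : OnePoint ℂ → OnePoint ℂ) (c : OnePoint ℂ) : Prop :=
  ∃ z : OnePoint ℂ, ∃ n : ℕ, 0 < n ∧ f^[n] z = z ∧
    (∃ U ∈ nhds z, ∀ w ∈ U,
      Filter.Tendsto (fun k : ℕ => f^[n * k] w) Filter.atTop (nhds z)) ∧
    Filter.Tendsto (fun k : ℕ => f^[n * k] c) Filter.atTop (nhds z)

/-- The chordal distance of the Riemann sphere. -/
noncomputable def chordal : OnePoint ℂ → OnePoint ℂ → ℝ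
  | OnePoint.some z, OnePoint.some w => ‖z - w‖ / (√(1 + ‖z‖ ^ 2) * √(1 + ‖w‖ ^ 2))
  | OnePoint.some z, OnePoint.infty => 1 / √(1 + ‖z‖ ^ 2)
  | OnePoint.infty, OnePoint.some w => 1 / √(1 + ‖w‖ ^ 2)
  | OnePoint.infty, OnePoint.infty => 0

/-- The Julia set of `f`: the points without a neighbourhood at whose points the iterates of `f` are
equicontinuous for the chordal distance. -/
def julia (f : OnePoint ℂ → OnePoint ℂ) : Set (OnePoint ℂ) :=
  (interior {x | ∀ ε : ℝ, 0 < ε → ∀ᶠ y in nhds x, ∀ n : ℕ, chordal (f^[n] x) (f^[n] y) < ε})ᶜ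

/-- The limit set of the orbit of `x`. -/
def limitSet (f : OnePoint ℂ → OnePoint ℂ) (x : OnePoint ℂ) : Set (OnePoint ℂ) :=
  {y | MapClusterPt y atTop fun n : ℕ => f^[n] x}

/-- The point `x` is summable: the derivatives of `f^n` at `x` in the chordal metric are bounded
below by numbers `a n > 0` with `∑ 1 / a n` finite (that is, they are not zero and the sum of their
inverses is finite; the local expansion rate is the modulus of the derivative). -/
def IsSummable (f : OnePoint ℂ → OnePoint ℂ) (x : OnePoint ℂ) : Prop :=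
  ∃ a : ℕ → ℝ, (∀ n, 0 < a n) ∧ Summable (fun n => 1 / a n) ∧
    ∀ n, ∀ᶠ y in 𝓝 x, a n * chordal x y ≤ chordal (f^[n] x) (f^[n] y)

/-- The point `x` is conical: for some `δ > 0` and infinitely many `n` the iterate `f^n` maps an open
set containing `x` bijectively onto the disc of radius `δ` around `f^n(x)`. -/
def IsConical (f : OnePoint ℂ → OnePoint ℂ) (x : OnePoint ℂ) : Prop :=
  ∃ δ : ℝ, 0 < δ ∧ ∃ᶠ n : ℕ in atTop, ∃ U : Set (OnePoint ℂ), IsOpen U ∧ x ∈ U ∧
    Set.BijOn f^[n] U {y | chordal (f^[n] x) y < δ}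

/-- The upper Lyapunov exponent of `f` at `x` is positive: for some `q > 1` the iterate `f^n` locally
expands the chordal distance from `x` by the factor `q^n` for infinitely many `n`. -/
def HasPositiveUpperExponent (f : OnePoint ℂ → OnePoint ℂ) (x : OnePoint ℂ) : Prop :=
  ∃ q : ℝ, 1 < q ∧ ∃ᶠ n : ℕ in atTop,
    ∀ᶠ y in 𝓝 x, q ^ n * chordal x y ≤ chordal (f^[n] x) (f^[n] y)

/-- The polynomial of degree at most `d` with coefficients `v`. -/
noncomputable def poly {d : ℕ} (v : Fin (d + 1) → ℂ) : Polynomial ℂ := ∑ i, C (v i) * X ^ (i : ℕ)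

/-- The rational maps `P/Q` of degree exactly `d` with `deg Q ≤ d - m`, given by the coefficients of a
pair of coprime polynomials, which have a property of maps of the sphere. For `m = 0` these are all
rational maps of degree `d`, for `m ≥ 1` those which fix infinity with local degree at least `m`, for
`m = d` the polynomials (up to the constant `Q`). -/
def MapsWith (d m : ℕ) (T : (OnePoint ℂ → OnePoint ℂ) → Prop) :
    Set ((Fin (d + 1) → ℂ) × (Fin (d - m + 1) → ℂ)) :=
  {v | IsCoprime (poly v.1) (poly v.2) ∧ max (poly v.1).natDegree (poly v.2).natDegree = d ∧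
    ∃ f : OnePoint ℂ → OnePoint ℂ, IsMap f (poly v.1) (poly v.2) ∧ T f}

theorem chord_eq (x y : OnePoint ℂ) : chordal x y = Pool.Agent.H35.EX.chord x y := by
  induction x using OnePoint.rec with
  | infty =>
    induction y using OnePoint.rec with
    | infty => rfl
    | coe y => rfl
  | coe x =>
    induction y using OnePoint.rec with
    | infty => rfl
    | coe y => rfl

theorem julia_eq (f : OnePoint ℂ → OnePoint ℂ) : julia f = Pool.Agent.H44.RC.JS f := by
  unfold julia Pool.Agent.H44.RC.JS Pool.Agent.H56.HR.FS Pool.Agent.H56.HR.EqAt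
  simp only [chord_eq]

theorem limit_eq (f : OnePoint ℂ → OnePoint ℂ) (x : OnePoint ℂ) :
    limitSet f x = Pool.Agent.H44.RC.Om f x := by
  ext y
  exact mapClusterPt_iff_frequently

theorem att_of {f : OnePoint ℂ → OnePoint ℂ} {c : OnePoint ℂ}
    (h : Pool.Agent.H32.BT.Att f c) : IsAttracted f c := by
  obtain ⟨z, n, ⟨h1, h2, h3⟩, h4⟩ := h
  exact ⟨z, n, h1, h2, h3, h4⟩

/-- recurrence -/
def PrA (f : OnePoint ℂ → OnePoint ℂ) : Prop :=
  ∀ c : OnePoint ℂ, IsCritical f c → c ∈ julia f →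
    ∃ r : OnePoint ℂ, IsCritical f r ∧ r ∈ julia f ∧ r ∈ limitSet f r ∧
      (limitSet f c ∩ limitSet f r).Nonempty

/-- hyperbolic or recurrent -/
def PrB (f : OnePoint ℂ → OnePoint ℂ) : Prop :=
  (∀ c : OnePoint ℂ, IsCritical f c → IsAttracted f c) ∨
    ∃ r : OnePoint ℂ, IsCritical f r ∧ r ∈ julia f ∧ r ∈ limitSet f r

/-- the condition on the critical value -/
def Good (f : OnePoint ℂ → OnePoint ℂ) (x : OnePoint ℂ) : Prop :=
  IsSummable f x ∧ (IsConical f x ∨ HasPositiveUpperExponent f x)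

/-- critical values of Collet-Eckmann type -/
def PrC (m : ℕ) (f : OnePoint ℂ → OnePoint ℂ) : Prop :=
  ∀ c : OnePoint ℂ, IsCritical f c → Good f (f c) →
    m = 0 ∧ Dense (Set.range fun n : ℕ => f^[n] c)

theorem prp_of {f : OnePoint ℂ → OnePoint ℂ} (h : Pool.Agent.H47.NM.Concl f) : PrA f ∧ PrB f := by
  refine ⟨fun c hc hJ => ?_, ?_⟩
  · rw [julia_eq] at hJ
    obtain ⟨r, h1, h2, h3, h4⟩ := h.1 c hc hJ
    refine ⟨r, h1, ?_, ?_, ?_⟩
    · rw [julia_eq]
      exact h2
    · rw [limit_eq]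
      exact h3
    · rw [limit_eq, limit_eq]
      exact h4
  · rcases h.2 with h1 | ⟨r, h1, h2, h3⟩
    · exact Or.inl fun c hc => att_of (h1 c hc)
    · refine Or.inr ⟨r, h1, ?_, ?_⟩
      · rw [julia_eq]
        exact h2
      · rw [limit_eq]
        exact h3

theorem maps_zero {d : ℕ} (hd : 2 ≤ d) {T : (OnePoint ℂ → OnePoint ℂ) → Prop}
    {v : Pool.Agent.H79.Eul.E d} (h : v ∈ MapsWith d 0 T) :
    IsCoprime (Pool.Agent.H79.Eul.pol v.1) (Pool.Agent.H79.Eul.pol v.2) ∧
      max (Pool.Agent.H79.Eul.pol v.1).natDegree (Pool.Agent.H79.Eul.pol v.2).natDegree = d ∧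
      T (Pool.Agent.H79.Par.Rf v) := by
  obtain ⟨h1, h2, f, hf, hT⟩ := h
  have h1' : IsCoprime (Pool.Agent.H79.Eul.pol v.1) (Pool.Agent.H79.Eul.pol v.2) := h1
  have h2' : max (Pool.Agent.H79.Eul.pol v.1).natDegree
      (Pool.Agent.H79.Eul.pol v.2).natDegree = d := h2
  have hB0 : Pool.Agent.H79.Eul.pol v.2 ≠ 0 := Pool.Agent.H32.BT.den_ne_zero h1' (by omega)
  have hfr : f = Pool.Agent.H79.Par.Rf v := Pool.Agent.H32.RB.ext_eq h1' hB0 hf
  rw [hfr] at hT
  exact ⟨h1', h2', hT⟩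

theorem rec_case {d m : ℕ} (hd : 2 ≤ d) (hm : m ≤ d) (hm1 : m ≠ 1) :
    volume (MapsWith d m fun f => ¬ (PrA f ∧ PrB f)) = 0 := by
  rcases Nat.eq_zero_or_pos m with h0 | h0
  · subst h0
    refine measure_mono_null ?_ (Pool.Agent.H47.NM.rc_zero hd)
    intro v hv
    obtain ⟨h1, h2, h3⟩ := maps_zero hd hv
    exact ⟨h1, h2, fun h => h3 (prp_of h)⟩
  · refine measure_mono_null ?_ (Pool.Agent.H47.NM.rc_fam (by omega : 2 ≤ m) hm)
    rintro v ⟨h1, h2, f, hf, hTf⟩
    have h1' : IsCoprime (Pool.Agent.H79.Eul.pol v.1) (Pool.Agent.H79.Eul.pol v.2) := h1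
    have h2' : max (Pool.Agent.H79.Eul.pol v.1).natDegree
        (Pool.Agent.H79.Eul.pol v.2).natDegree = d := h2
    have hB0 : Pool.Agent.H79.Eul.pol v.2 ≠ 0 := Pool.Agent.H32.BT.den_ne_zero h1' (by omega)
    have e1 := (Pool.Agent.H47.NM.ex_pol v).1
    have e2 := (Pool.Agent.H47.NM.ex_pol v).2
    have hfr : f = Pool.Agent.H79.Par.Rf (Pool.Agent.H47.NM.ex d m v) := by
      refine Pool.Agent.H32.RB.ext_eq (by rw [e1, e2]; exact h1') (by rw [e2]; exact hB0) ?_
      rw [e1, e2]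
      exact hf
    refine ⟨h1', h2', ?_⟩
    rw [← hfr]
    exact fun h => hTf (prp_of h)

theorem nd_case {d : ℕ} (hd : 2 ≤ d) :
    IsNowhereDense (MapsWith d 0 fun f => ¬ (PrA f ∧ PrB f)) := by
  refine (Pool.Agent.H44.ND.rc_nd hd).mono ?_
  intro v hv
  obtain ⟨h1, h2, h3⟩ := maps_zero hd hv
  exact ⟨h1, h2, fun h => h3 (prp_of h)⟩

/-- the dynamical statement -/
theorem hole_tg {d : ℕ} (hd : 2 ≤ d) : Pool.Agent.H44.RG.HoleT d Pool.Agent.H44.RG.TG := by
  intro v0 h c hw hT hX V hV hVn hj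
  obtain ⟨hS, hC | ⟨q, hq, hU⟩⟩ := hT
  · exact Pool.Agent.H79.MZ.hole_d hd v0 h c hw hS hC hX V hV hVn hj
  · exact Pool.Agent.H79.MZ.hole_ul hd h hw hS hq hU hX hV hVn

theorem tg_of {f : OnePoint ℂ → OnePoint ℂ} {x : OnePoint ℂ} (hT : Good f x) :
    Pool.Agent.H44.RG.TG f x := by
  have hT' : IsSummable f x ∧ (IsConical f x ∨ HasPositiveUpperExponent f x) := hT
  obtain ⟨⟨a, ha, hs, hn⟩, hCU⟩ := hT'
  refine ⟨⟨a, ha, hs, fun n => ?_⟩, ?_⟩
  · filter_upwards [hn n] with y hy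
    rw [← chord_eq, ← chord_eq]
    exact hy
  · rcases hCU with ⟨δ, hδ, hfr⟩ | ⟨q, hq, hfr⟩
    · left
      refine ⟨δ, hδ, hfr.mono fun n hU => ?_⟩
      obtain ⟨U, hU1, hU2, hU3⟩ := hU
      refine ⟨U, hU1, hU2, ?_⟩
      have h3 : {y | Pool.Agent.H35.EX.chord (f^[n] x) y < δ} = {y | chordal (f^[n] x) y < δ} := by
        ext y
        show _ < δ ↔ _ < δ
        rw [chord_eq]
      rw [h3]
      exact hU3
    · right
      refine ⟨q, hq, hfr.mono fun n hn => ?_⟩
      filter_upwards [hn] with y hy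
      rw [← chord_eq, ← chord_eq]
      exact hy

theorem zero_case {d : ℕ} (hd : 2 ≤ d) :
    volume (MapsWith d 0 fun f => ∃ c : OnePoint ℂ, IsCritical f c ∧ Good f (f c) ∧
      ¬ Dense (Set.range fun n : ℕ => f^[n] c)) = 0 := by
  refine measure_mono_null ?_ (Pool.Agent.H44.RG.gg_main (d := d) hd (hole_tg hd))
  intro v hv
  obtain ⟨h1, h2, c, hc, hT, hden⟩ := maps_zero hd hv
  exact ⟨h1, h2, c, hc, tg_of hT, hden⟩

theorem family_case {d m : ℕ} (hm : 2 ≤ m) (hmd : m ≤ d) :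
    volume (MapsWith d m fun f => ∃ c : OnePoint ℂ, IsCritical f c ∧ Good f (f c)) = 0 := by
  refine measure_mono_null ?_ (Pool.Agent.H9.GP.family_null hm hmd)
  rintro v ⟨h1, h2, f, hf, c, hc, hT⟩
  have h1' : IsCoprime (Pool.Agent.H79.Eul.pol v.1) (Pool.Agent.H79.Eul.pol v.2) := h1
  have h2' : max (Pool.Agent.H79.Eul.pol v.1).natDegree
      (Pool.Agent.H79.Eul.pol v.2).natDegree = d := h2
  have hB0 : Pool.Agent.H79.Eul.pol v.2 ≠ 0 := Pool.Agent.H32.BT.den_ne_zero h1' (by omega)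
  have hfr : f = Pool.Agent.H44.Fatou.rat (Pool.Agent.H79.Eul.pol v.1)
      (Pool.Agent.H79.Eul.pol v.2) := Pool.Agent.H32.RB.ext_eq h1' hB0 hf
  rw [hfr] at hc hT
  exact ⟨h1', h2', c, hc, tg_of hT⟩

theorem val_case {d m : ℕ} (hd : 2 ≤ d) (hm : m ≤ d) (hm1 : m ≠ 1) :
    volume (MapsWith d m fun f => ¬ PrC m f) = 0 := by
  rcases Nat.eq_zero_or_pos m with h0 | h0
  · subst h0
    refine measure_mono_null ?_ (zero_case hd)
    rintro v ⟨h1, h2, f, hf, hC⟩
    refine ⟨h1, h2, f, hf, ?_⟩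
    by_contra h
    push Not at h
    exact hC fun c hc hg => ⟨rfl, h c hc hg⟩
  · refine measure_mono_null ?_ (family_case (by omega : 2 ≤ m) hm)
    rintro v ⟨h1, h2, f, hf, hC⟩
    refine ⟨h1, h2, f, hf, ?_⟩
    by_contra h
    push Not at h
    exact hC fun c hc hg => absurd hg (h c hc)

/-- Let `2 ≤ d`, `m ≤ d`, `m ≠ 1`. Let `MapsWith d m` be the space of the rational maps `P/Q` of degree
`d` with `deg Q ≤ d - m`: for `m = 0` all rational maps of degree `d`, for `m ≥ 2` those which have a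
superattracting fixed point at infinity of local degree at least `m`, for `m = d` the polynomials. For
Lebesgue almost every `f` in it: (A) the limit set of every critical point in the Julia set meets the
limit set of a recurrent critical point in the Julia set; (B) `f` is hyperbolic or has a recurrent
critical point in its Julia set; (C) if the critical value `f(c)` is summable and conical, or summable
and of positive upper Lyapunov exponent (for example Collet-Eckmann), then `m = 0` and the orbit of `c`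
is dense in the sphere. Moreover for `m = 0` the set of the maps without (A) or (B) is nowhere dense. -/
theorem result (d m : ℕ) (hd : 2 ≤ d) (hm : m ≤ d) (hm1 : m ≠ 1) :
    volume (MapsWith d m fun f =>
      ¬ ((∀ c : OnePoint ℂ, IsCritical f c → c ∈ julia f →
          ∃ r : OnePoint ℂ, IsCritical f r ∧ r ∈ julia f ∧ r ∈ limitSet f r ∧
            (limitSet f c ∩ limitSet f r).Nonempty) ∧
        ((∀ c : OnePoint ℂ, IsCritical f c → IsAttracted f c) ∨
          ∃ r : OnePoint ℂ, IsCritical f r ∧ r ∈ julia f ∧ r ∈ limitSet f r) ∧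
        ∀ c : OnePoint ℂ, IsCritical f c → IsSummable f (f c) →
          IsConical f (f c) ∨ HasPositiveUpperExponent f (f c) →
          m = 0 ∧ Dense (Set.range fun n : ℕ => f^[n] c))) = 0 ∧
    (m = 0 → IsNowhereDense (MapsWith d m fun f =>
      ¬ ((∀ c : OnePoint ℂ, IsCritical f c → c ∈ julia f →
          ∃ r : OnePoint ℂ, IsCritical f r ∧ r ∈ julia f ∧ r ∈ limitSet f r ∧
            (limitSet f c ∩ limitSet f r).Nonempty) ∧
        ((∀ c : OnePoint ℂ, IsCritical f c → IsAttracted f c) ∨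
          ∃ r : OnePoint ℂ, IsCritical f r ∧ r ∈ julia f ∧ r ∈ limitSet f r)))) := by
  refine ⟨?_, fun h0 => ?_⟩
  · refine measure_mono_null ?_ (measure_union_null (rec_case hd hm hm1) (val_case hd hm hm1))
    rintro v ⟨h1, h2, f, hf, hP⟩
    by_cases hAB : PrA f ∧ PrB f
    · right
      refine ⟨h1, h2, f, hf, fun hC => hP ⟨hAB.1, hAB.2, fun c hc hs hg => hC c hc ⟨hs, hg⟩⟩⟩
    · left
      exact ⟨h1, h2, f, hf, hAB⟩
  · subst h0
    exact nd_case hd

end Pool.Agent.H44.ND.RecurrentCritical
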